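import Mathlib
import Pool.Agent.Lib.NK.Base
import Pool.Agent.Lib.P71954f.MengerAB

set_option autoImplicit false

/-! Dicycles as vertex sets, their contacts with other sets, and the fan of dicycles through one vertex. -/

namespace Pool.Agent.Lib.PR

open Finset Pool.Agent.Lib.NK
open scoped Classical

variable {V : Type*} {R : V → V → Prop}

/-- the vertex sets of dicycles -/
def DC (R : V → V → Prop) (g : Finset V) : Prop :=
  ∃ w l, (w :: l).Nodup ∧ (w :: (l ++ [w])).IsChain R ∧ g = (w :: l).toFinset

theorem DC.circ {g : Finset V} (h : DC R g) : Circ R g := by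
  obtain ⟨w, l, h1, h2, rfl⟩ := h
  exact circ_list h1 h2

/-- a dicycle may be started at any of its vertices -/
theorem DC.rot {g : Finset V} (h : DC R g) {x : V} (hx : x ∈ g) :
    ∃ l, (x :: l).Nodup ∧ (x :: (l ++ [x])).IsChain R ∧ g = (x :: l).toFinset := by
  obtain ⟨w, l, h1, h2, rfl⟩ := h
  rw [List.mem_toFinset] at hx
  rcases List.mem_cons.mp hx with hx | hx
  · subst hx; exact ⟨l, h1, h2, rfl⟩
  · obtain ⟨p, q, rfl⟩ := List.append_of_mem hx
    have e1 : w :: (p ++ x :: q ++ [w]) = w :: (p ++ x :: (q ++ [w])) := by simp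
    rw [e1, List.isChain_cons_split] at h2
    refine ⟨q ++ w :: p, ?_, ?_, ?_⟩
    · simp only [List.nodup_cons, List.nodup_append, List.mem_append, List.mem_cons] at h1 ⊢
      grind
    · have e2 : x :: (q ++ w :: p ++ [x]) = x :: (q ++ w :: (p ++ [x])) := by simp
      rw [e2, List.isChain_cons_split]
      exact ⟨h2.2, h2.1⟩
    · ext z
      simp only [List.mem_toFinset, List.mem_cons, List.mem_append]
      tauto

theorem first_mem (p : V → Prop) (l : List V) (h : ∃ v ∈ l, p v) :
    ∃ l1 v l2, l = l1 ++ v :: l2 ∧ p v ∧ ∀ w ∈ l1, ¬ p w := by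
  induction l with
  | nil => simp at h
  | cons a l ih =>
    by_cases ha : p a
    · exact ⟨[], a, l, rfl, ha, by simp⟩
    · obtain ⟨v, hv, hpv⟩ := h
      rcases List.mem_cons.1 hv with rfl | hv
      · exact absurd hpv ha
      · obtain ⟨l1, w, l2, e, hw, hl1⟩ := ih ⟨v, hv, hpv⟩
        refine ⟨a :: l1, w, l2, by rw [e]; rfl, hw, ?_⟩
        intro z hz
        rcases List.mem_cons.1 hz with rfl | hz
        · exact ha
        · exact hl1 z hz

theorem last_mem (p : V → Prop) (l : List V) (h : ∃ v ∈ l, p v) :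
    ∃ l1 v l2, l = l1 ++ v :: l2 ∧ p v ∧ ∀ w ∈ l2, ¬ p w := by
  obtain ⟨l1, v, l2, e, hv, hl⟩ := first_mem p l.reverse (by simpa using h)
  refine ⟨l2.reverse, v, l1.reverse, ?_, hv, by simpa using hl⟩
  have := congrArg List.reverse e
  rw [List.reverse_reverse] at this
  rw [this]
  simp

/-- the contacts next to `d` of a dicycle through `d` with a set -/
theorem DC.contact {g : Finset V} (h : DC R g) {d : V} (hd : d ∈ g) (p : V → Prop) (hpd : ¬ p d)
    (hp : ∃ z ∈ g, p z) :
    ∃ v v' Q1 Q2, p v ∧ p v' ∧ v ∈ g ∧ v' ∈ g ∧ Rc R Q1 d v ∧ Rc R Q2 v' d ∧ Q1 ⊆ g ∧ Q2 ⊆ g ∧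
      (∀ z ∈ Q1, p z → z = v) ∧ (∀ z ∈ Q2, p z → z = v') ∧
      (∀ z ∈ Q1, z ∈ Q2 → z = d ∨ (z = v ∧ z = v')) ∧ (v ≠ v' → Rc R (g.erase d) v v') := by
  obtain ⟨l, h1, h2, rfl⟩ := h.rot hd
  obtain ⟨z, hz, hpz⟩ := hp
  have hzl : z ∈ l := by
    rw [List.mem_toFinset] at hz
    rcases List.mem_cons.mp hz with h | h
    · subst h; exact absurd hpz hpd
    · exact h
  obtain ⟨l1, v, l2, rfl, hv, hl1⟩ := first_mem p l ⟨z, hzl, hpz⟩
  have e1 : d :: (l1 ++ v :: l2 ++ [d]) = d :: (l1 ++ v :: (l2 ++ [d])) := by simp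
  rw [e1, List.isChain_cons_split] at h2
  obtain ⟨c1, c2⟩ := h2
  by_cases hl2 : ∃ u ∈ l2, p u
  · obtain ⟨l3, v', l4, rfl, hv', hl4⟩ := last_mem p l2 hl2
    have e2 : v :: (l3 ++ v' :: l4 ++ [d]) = v :: (l3 ++ v' :: (l4 ++ [d])) := by simp
    rw [e2, List.isChain_cons_split] at c2
    obtain ⟨c2, c3⟩ := c2
    refine ⟨v, v', (d :: (l1 ++ [v])).toFinset, (v' :: (l4 ++ [d])).toFinset, hv, hv', by simp, by simp,
      chainRc _ _ _ c1, chainRc _ _ _ c3, ?_, ?_, ?_, ?_, ?_, ?_⟩
    · intro x hx
      simp only [List.mem_toFinset, List.mem_cons, List.mem_append, List.not_mem_nil, or_false] at hx ⊢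
      tauto
    · intro x hx
      simp only [List.mem_toFinset, List.mem_cons, List.mem_append, List.not_mem_nil, or_false] at hx ⊢
      tauto
    · intro x hx hpx
      simp only [List.mem_toFinset, List.mem_cons, List.mem_append, List.not_mem_nil, or_false] at hx
      rcases hx with h | h | h
      · subst h; exact absurd hpx hpd
      · exact absurd hpx (hl1 x h)
      · exact h
    · intro x hx hpx
      simp only [List.mem_toFinset, List.mem_cons, List.mem_append, List.not_mem_nil, or_false] at hx
      rcases hx with h | h | h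
      · exact h
      · exact absurd hpx (hl4 x h)
      · subst h; exact absurd hpx hpd
    · intro x hx hx'
      simp only [List.mem_toFinset, List.mem_cons, List.mem_append, List.not_mem_nil, or_false] at hx hx'
      simp only [List.nodup_cons, List.nodup_append, List.mem_append, List.mem_cons] at h1
      grind
    · intro _
      refine (chainRc _ _ _ c2).mono ?_
      intro x hx
      simp only [List.mem_toFinset, List.mem_cons, List.mem_append, List.not_mem_nil, or_false, mem_erase] at hx ⊢
      simp only [List.nodup_cons, List.nodup_append, List.mem_append, List.mem_cons] at h1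
      refine ⟨?_, ?_⟩
      · rintro rfl
        grind
      · tauto
  · push Not at hl2
    refine ⟨v, v, (d :: (l1 ++ [v])).toFinset, (v :: (l2 ++ [d])).toFinset, hv, hv, by simp, by simp,
      chainRc _ _ _ c1, chainRc _ _ _ c2, ?_, ?_, ?_, ?_, ?_, ?_⟩
    · intro x hx
      simp only [List.mem_toFinset, List.mem_cons, List.mem_append, List.not_mem_nil, or_false] at hx ⊢
      tauto
    · intro x hx
      simp only [List.mem_toFinset, List.mem_cons, List.mem_append, List.not_mem_nil, or_false] at hx ⊢
      tauto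
    · intro x hx hpx
      simp only [List.mem_toFinset, List.mem_cons, List.mem_append, List.not_mem_nil, or_false] at hx
      rcases hx with h | h | h
      · subst h; exact absurd hpx hpd
      · exact absurd hpx (hl1 x h)
      · exact h
    · intro x hx hpx
      simp only [List.mem_toFinset, List.mem_cons, List.mem_append, List.not_mem_nil, or_false] at hx
      rcases hx with h | h | h
      · exact h
      · exact absurd hpx (hl2 x h)
      · subst h; exact absurd hpx hpd
    · intro x hx hx'
      simp only [List.mem_toFinset, List.mem_cons, List.mem_append, List.not_mem_nil, or_false] at hx hx'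
      simp only [List.nodup_cons, List.nodup_append, List.mem_append, List.mem_cons] at h1
      grind
    · intro h; exact absurd rfl h

/-- two vertices of a dicycle seen from a third one -/
theorem DC.sides {k : Finset V} (h : DC R k) {t v v' : V} (ht : t ∈ k) (hv : v ∈ k) (hv' : v' ∈ k)
    (hvt : v ≠ t) (hvt' : v' ≠ t) (hne : v ≠ v') :
    (∃ N B1 B2, N ⊆ k ∧ B1 ⊆ k ∧ B2 ⊆ k ∧ Rc R N v v' ∧ Rc R B1 v' t ∧ Rc R B2 t v ∧ t ∉ N ∧
      (∀ z ∈ B1, z ∈ N → z = v') ∧ (∀ z ∈ B2, z ∈ N → z = v) ∧ (∀ z ∈ B1, z ∈ B2 → z = t)) ∨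
    (∃ P1 P2, P1 ⊆ k ∧ P2 ⊆ k ∧ Rc R P1 t v' ∧ Rc R P2 v t ∧ (∀ z ∈ P1, z ∈ P2 → z = t) ∧
      Rc R (k.erase t) v' v) := by
  obtain ⟨l, h1, h2, rfl⟩ := h.rot ht
  have hvl : v ∈ l := by
    rw [List.mem_toFinset] at hv
    rcases List.mem_cons.mp hv with h | h
    · exact absurd h hvt
    · exact h
  have hvl' : v' ∈ l := by
    rw [List.mem_toFinset] at hv'
    rcases List.mem_cons.mp hv' with h | h
    · exact absurd h hvt'
    · exact h
  obtain ⟨l1, l2, rfl⟩ := List.append_of_mem hvl
  have e1 : t :: (l1 ++ v :: l2 ++ [t]) = t :: (l1 ++ v :: (l2 ++ [t])) := by simp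
  rw [e1, List.isChain_cons_split] at h2
  obtain ⟨c1, c2⟩ := h2
  rcases List.mem_append.mp hvl' with hm | hm
  · -- `v'` before `v`
    right
    obtain ⟨l3, l4, rfl⟩ := List.append_of_mem hm
    have e2 : t :: (l3 ++ v' :: l4 ++ [v]) = t :: (l3 ++ v' :: (l4 ++ [v])) := by simp
    rw [e2, List.isChain_cons_split] at c1
    obtain ⟨c3, c4⟩ := c1
    refine ⟨(t :: (l3 ++ [v'])).toFinset, (v :: (l2 ++ [t])).toFinset, ?_, ?_, chainRc _ _ _ c3,
      chainRc _ _ _ c2, ?_, ?_⟩
    · intro x hx
      simp only [List.mem_toFinset, List.mem_cons, List.mem_append, List.not_mem_nil, or_false] at hx ⊢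
      tauto
    · intro x hx
      simp only [List.mem_toFinset, List.mem_cons, List.mem_append, List.not_mem_nil, or_false] at hx ⊢
      tauto
    · intro x hx hx'
      simp only [List.mem_toFinset, List.mem_cons, List.mem_append, List.not_mem_nil, or_false] at hx hx'
      simp only [List.nodup_cons, List.nodup_append, List.mem_append, List.mem_cons] at h1
      grind
    · refine (chainRc _ _ _ c4).mono ?_
      intro x hx
      simp only [List.mem_toFinset, List.mem_cons, List.mem_append, List.not_mem_nil, or_false, mem_erase] at hx ⊢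
      simp only [List.nodup_cons, List.nodup_append, List.mem_append, List.mem_cons] at h1
      refine ⟨?_, ?_⟩
      · rintro rfl
        grind
      · tauto
  · -- `v'` after `v`
    have hm : v' ∈ l2 := by
      rcases List.mem_cons.mp hm with h | h
      · exact absurd h.symm hne
      · exact h
    left
    obtain ⟨l3, l4, rfl⟩ := List.append_of_mem hm
    have e2 : v :: (l3 ++ v' :: l4 ++ [t]) = v :: (l3 ++ v' :: (l4 ++ [t])) := by simp
    rw [e2, List.isChain_cons_split] at c2
    obtain ⟨c3, c4⟩ := c2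
    refine ⟨(v :: (l3 ++ [v'])).toFinset, (v' :: (l4 ++ [t])).toFinset, (t :: (l1 ++ [v])).toFinset, ?_, ?_, ?_,
      chainRc _ _ _ c3, chainRc _ _ _ c4, chainRc _ _ _ c1, ?_, ?_, ?_, ?_⟩
    · intro x hx
      simp only [List.mem_toFinset, List.mem_cons, List.mem_append, List.not_mem_nil, or_false] at hx ⊢
      tauto
    · intro x hx
      simp only [List.mem_toFinset, List.mem_cons, List.mem_append, List.not_mem_nil, or_false] at hx ⊢
      tauto
    · intro x hx
      simp only [List.mem_toFinset, List.mem_cons, List.mem_append, List.not_mem_nil, or_false] at hx ⊢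
      tauto
    · intro hx
      simp only [List.mem_toFinset, List.mem_cons, List.mem_append, List.not_mem_nil, or_false] at hx
      simp only [List.nodup_cons, List.nodup_append, List.mem_append, List.mem_cons] at h1
      grind
    · intro x hx hx'
      simp only [List.mem_toFinset, List.mem_cons, List.mem_append, List.not_mem_nil, or_false] at hx hx'
      simp only [List.nodup_cons, List.nodup_append, List.mem_append, List.mem_cons] at h1
      grind
    · intro x hx hx'
      simp only [List.mem_toFinset, List.mem_cons, List.mem_append, List.not_mem_nil, or_false] at hx hx'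
      simp only [List.nodup_cons, List.nodup_append, List.mem_append, List.mem_cons] at h1
      grind
    · intro x hx hx'
      simp only [List.mem_toFinset, List.mem_cons, List.mem_append, List.not_mem_nil, or_false] at hx hx'
      simp only [List.nodup_cons, List.nodup_append, List.mem_append, List.mem_cons] at h1
      grind

/-- a link inside a dicycle -/
theorem DC.pair {k : Finset V} (h : DC R k) {t v : V} (ht : t ∈ k) (hv : v ∈ k) (hvt : v ≠ t) :
    ∃ B1 B2, B1 ⊆ k ∧ B2 ⊆ k ∧ Rc R B1 v t ∧ Rc R B2 t v ∧ ∀ z ∈ B1, z ∈ B2 → z = t ∨ z = v := by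
  obtain ⟨_, S1, S2, h1, h2, h3, h4, h5⟩ := h.circ v hv t ht hvt
  exact ⟨S1, S2, h4, h5, h1, h2, fun z hz hz' => (h3 z hz hz').symm⟩

theorem chain_mem {E : Finset (V × V)} {D : Finset V} (hE : ∀ p ∈ E, p.1 ∈ D ∧ p.2 ∈ D) :
    ∀ (l : List V) (a : V), a ∈ D → (a :: l).IsChain (fun a b => (a, b) ∈ E) → ∀ x ∈ l, x ∈ D := by
  intro l
  induction l with
  | nil => intro a _ _ x hx; simp at hx
  | cons b l ih =>
    intro a ha h x hx
    rw [List.isChain_cons_cons] at h
    have hb := (hE _ h.1).2
    rcases List.mem_cons.mp hx with rfl | hx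
    · exact hb
    · exact ih b hb h.2 x hx

theorem chain_rc' : ∀ (l : List V) (a b : V), (a :: l).IsChain R → (a :: l).getLast? = some b →
    Rc R (a :: l).toFinset a b := by
  intro l
  induction l with
  | nil =>
    intro a b _ h
    have : a = b := by simpa using h
    subst this
    exact Rc.rfl' (by simp)
  | cons c l ih =>
    intro a b h hl
    rw [List.isChain_cons_cons] at h
    have h1 := ih c b h.2 (by simpa using hl)
    refine Rc.head h.1 (by simp) (h1.mono ?_)
    intro x hx
    simp only [List.mem_toFinset, List.mem_cons] at hx ⊢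
    tauto

/-- a minimum transversal of the dicycles through `t` and a fan of dicycles meeting it once each -/
theorem exists_fan [Finite V] {D : Finset V} {t : V} (ht : t ∉ D) :
    ∃ X ⊆ D, Tr R D t X ∧ ∃ g : V → Finset V, ∀ y ∈ X, DC R (g y) ∧ t ∈ g y ∧ y ∈ g y ∧
      (∀ z ∈ g y, z = t ∨ z = y ∨ z ∈ D \ X) ∧ ∀ y' ∈ X, y ≠ y' → ∀ z ∈ g y, z ∈ g y' → z = t := by
  obtain ⟨X, hX, hmin⟩ := exists_min_image (D.powerset.filter (fun X => Tr R D t X)) card ⟨D, by
    simp only [mem_filter, mem_powerset, Subset.refl, true_and]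
    intro n u _ _ h
    have := h.left
    simp at this⟩
  simp only [mem_filter, mem_powerset] at hX hmin
  obtain ⟨hXD, hT⟩ := hX
  obtain ⟨E, hE⟩ : ∃ E : Finset (V × V), E = (D ×ˢ D).filter (fun p => R p.1 p.2) := ⟨_, rfl⟩
  have hEm : ∀ a b, (a, b) ∈ E ↔ (a ∈ D ∧ b ∈ D) ∧ R a b := by intro a b; subst hE; simp
  have hEs : ∀ p ∈ E, p.1 ∈ D ∧ p.2 ∈ D := by intro p hp; subst hE; simp at hp; exact hp.1
  have hER : ∀ {l : List V}, l.IsChain (fun a b => (a, b) ∈ E) → l.IsChain R :=
    fun hl => hl.imp (fun a b hab => ((hEm a b).mp hab).2)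
  have hM := P71954f.MengerABAux.menger E {n | n ∈ D ∧ R t n} {u | u ∈ D ∧ R u t} X.card (by
    intro S hS
    have h1 : Tr R D t (S ∩ D) := by
      intro n u hn hu hr
      by_cases hnu : n = u
      · subst hnu
        have hnD := hr.left
        simp only [mem_sdiff, mem_inter, not_and] at hnD
        obtain ⟨v, hv, hvS⟩ := hS [n] (List.isChain_singleton _) ⟨n, ⟨hnD.1, hn⟩, rfl⟩ ⟨n, ⟨hnD.1, hu⟩, rfl⟩
        have : v = n := by simpa using hv
        subst this
        exact hnD.2 hvS hnD.1
      · obtain ⟨l, hp, hl⟩ := hr.pth hnu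
        have hall : ∀ x ∈ n :: (l ++ [u]), x ∈ D \ (S ∩ D) := by
          intro x hx
          simp only [List.mem_cons, List.mem_append, List.not_mem_nil, or_false] at hx
          rcases hx with h | h | h
          · exact h ▸ hr.left
          · exact hl x h
          · exact h ▸ hr.right
        have hch : (n :: (l ++ [u])).IsChain (fun a b => (a, b) ∈ E) := by
          have h2 := hp.2
          rw [List.isChain_iff_getElem] at h2 ⊢
          intro i hi
          rw [hEm]
          refine ⟨⟨?_, ?_⟩, h2 i hi⟩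
          · exact (mem_sdiff.mp (hall _ (List.getElem_mem _))).1
          · exact (mem_sdiff.mp (hall _ (List.getElem_mem _))).1
        obtain ⟨v, hv, hvS⟩ := hS (n :: (l ++ [u])) hch
          ⟨n, ⟨(mem_sdiff.mp hr.left).1, hn⟩, rfl⟩ ⟨u, ⟨(mem_sdiff.mp hr.right).1, hu⟩, by
            have e : n :: (l ++ [u]) = (n :: l) ++ [u] := rfl
            rw [e]; exact List.getLast?_concat⟩
        have := hall v hv
        simp only [mem_sdiff, mem_inter, not_and] at this
        exact this.2 hvS this.1
    exact (hmin (S ∩ D) ⟨inter_subset_right, h1⟩).trans (card_le_card inter_subset_left))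
  obtain ⟨L, hL, hdis⟩ := hM
  -- the members of the lists lie in `D`
  have hLD : ∀ i, ∀ x ∈ L i, x ∈ D := by
    intro i x hx
    obtain ⟨_, hc, ⟨a, ha, hla⟩, _⟩ := hL i
    cases hLi : L i with
    | nil => rw [hLi] at hx; simp at hx
    | cons c l =>
      rw [hLi] at hx hc hla
      have : c = a := by simpa using hla
      subst this
      rcases List.mem_cons.mp hx with rfl | hx
      · exact ha.1
      · exact chain_mem hEs l c ha.1 hc x hx
  have hhit : ∀ i, ∃ x ∈ L i, x ∈ X := by
    intro i
    by_contra hcon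
    push Not at hcon
    obtain ⟨_, hc, ⟨a, ha, hla⟩, ⟨b, hb, hlb⟩⟩ := hL i
    cases hLi : L i with
    | nil => rw [hLi] at hla; simp at hla
    | cons c l =>
      rw [hLi] at hc hla hlb
      have : c = a := by simpa using hla
      subst this
      refine hT c b ha.2 hb.2 ((chain_rc' l c b (hER hc) hlb).mono ?_)
      intro x hx
      have hx' : x ∈ L i := by rw [hLi]; exact List.mem_toFinset.mp hx
      exact mem_sdiff.mpr ⟨hLD i x hx', hcon x hx'⟩
  choose f hfL hfX using hhit
  have hfinj : Function.Injective f := by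
    intro i i' he
    by_contra hne
    exact hdis i i' hne (f i) (hfL i) (he ▸ hfL i')
  have hfsurj : ∀ y ∈ X, ∃ i, f i = y := by
    have h1 : (univ.image f) ⊆ X := by
      intro y hy
      obtain ⟨i, _, rfl⟩ := mem_image.mp hy
      exact hfX i
    have h2 : (univ.image f) = X := by
      apply eq_of_subset_of_card_le h1
      rw [card_image_of_injective _ hfinj, card_univ, Fintype.card_fin]
    intro y hy
    rw [← h2] at hy
    obtain ⟨i, _, rfl⟩ := mem_image.mp hy
    exact ⟨i, rfl⟩
  have huni : ∀ i, ∀ y ∈ X, y ∈ L i → y = f i := by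
    intro i y hy hyL
    obtain ⟨i', rfl⟩ := hfsurj y hy
    by_cases h : i = i'
    · rw [h]
    · exact absurd (hfL i') (hdis i i' h _ hyL)
  have hdc : ∀ i, DC R (insert t (L i).toFinset) := by
    intro i
    obtain ⟨hn, hc, ⟨a, ha, hla⟩, ⟨b, hb, hlb⟩⟩ := hL i
    have htL : t ∉ L i := fun h => ht (hLD i t h)
    refine ⟨t, L i, List.nodup_cons.mpr ⟨htL, hn⟩, ?_, by simp⟩
    cases hLi : L i with
    | nil => rw [hLi] at hla; simp at hla
    | cons c l =>
      rw [hLi] at hc hla hlb
      have : c = a := by simpa using hla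
      subst this
      rw [List.cons_append, List.isChain_cons_cons]
      refine ⟨ha.2, ?_⟩
      rw [← List.cons_append, List.isChain_append]
      refine ⟨hER hc, List.isChain_singleton _, ?_⟩
      intro x hx y hy
      rw [hlb] at hx
      simp only [Option.mem_def, Option.some.injEq, List.head?_cons] at hx hy
      subst hx; subst hy
      exact hb.2
  refine ⟨X, hXD, hT, fun y => if h : ∃ i, f i = y then insert t (L h.choose).toFinset else ∅, ?_⟩
  have hg : ∀ y ∈ X, ∃ i, f i = y ∧ (if h : ∃ i, f i = y then insert t (L h.choose).toFinset else ∅) =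
      insert t (L i).toFinset := by
    intro y hy
    have h := hfsurj y hy
    refine ⟨h.choose, h.choose_spec, ?_⟩
    rw [dif_pos h]
  intro y hy
  obtain ⟨i, hi, he⟩ := hg y hy
  simp only [he]
  refine ⟨hdc i, mem_insert_self _ _, ?_, ?_, ?_⟩
  · rw [← hi]; exact mem_insert_of_mem (List.mem_toFinset.mpr (hfL i))
  · intro z hz
    rcases mem_insert.mp hz with h | h
    · exact Or.inl h
    · rw [List.mem_toFinset] at h
      by_cases hzX : z ∈ X
      · right; left; rw [huni i z hzX h, hi]
      · right; right; exact mem_sdiff.mpr ⟨hLD i z h, hzX⟩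
  · intro y' hy' hne z hz hz'
    obtain ⟨i', hi', he'⟩ := hg y' hy'
    simp only [he'] at hz'
    rcases mem_insert.mp hz with h | h
    · exact h
    rcases mem_insert.mp hz' with h' | h'
    · exact h'
    exfalso
    have hii : i ≠ i' := by
      rintro rfl
      exact hne (hi.symm.trans hi')
    exact hdis i i' hii z (List.mem_toFinset.mp h) (List.mem_toFinset.mp h')

end Pool.Agent.Lib.PR
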