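import Mathlib
import Pool.Agent.Lib.NK.Base

set_option autoImplicit false

/-! Rings of dicycles with at most one neck: the predicate `NR` and its explicit form `ConclN`. -/

namespace Pool.Agent.Lib.PR

open Finset Pool.Agent.Lib.NK
open scoped Classical

variable {V : Type*} {R : V → V → Prop}

/-- two dicycles through `m` and through `t` which share exactly the path `N` from `x` to `y` -/
def NL (R : V → V → Prop) (T : Finset V) (m t : V) : Prop :=
  ∃ (x y : V) (N A1 A2 B1 B2 : Finset V), m ≠ t ∧ Rc R N x y ∧ Rc R A1 y m ∧ Rc R A2 m x ∧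
    Rc R B1 y t ∧ Rc R B2 t x ∧ m ∉ N ∧ t ∉ N ∧
    (∀ z ∈ A1, z ∈ N → z = y) ∧ (∀ z ∈ A2, z ∈ N → z = x) ∧
    (∀ z ∈ B1, z ∈ N → z = y) ∧ (∀ z ∈ B2, z ∈ N → z = x) ∧
    (∀ z ∈ A1, z ∈ A2 → z = m ∨ z ∈ N) ∧ (∀ z ∈ B1, z ∈ B2 → z = t ∨ z ∈ N) ∧
    (∀ z, (z ∈ A1 ∨ z ∈ A2) → (z ∈ B1 ∨ z ∈ B2) → z ∈ N) ∧
    N ⊆ T ∧ A1 ⊆ T ∧ A2 ⊆ T ∧ B1 ⊆ T ∧ B2 ⊆ T

/-- a ring of at least three dicycles with at most one neck -/
def NR (R : V → V → Prop) : Prop :=
  ∃ r m t S T, 1 ≤ r ∧ Ch R r m t S ∧ NL R T m t ∧ ∀ x ∈ S, x ∈ T → x = m ∨ x = t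

theorem Neck.nr (h : Neck R) : NR R := by
  obtain ⟨r, a, t, S, T, hr, hch, hT, hST⟩ := h
  cases hch with
  | nil => omega
  | @cons r' _ m _ E S' h1 h2 h3 =>
    have hmt : m ≠ t := h2.ne (by omega)
    have hat : t ≠ a := hT.ne
    have hma : m ≠ a := h1.ne.symm
    have htE : t ∉ E := fun h => hmt (h3 t h h2.right).symm
    have haS : a ∉ S' := fun h => hma (h3 a h1.left h).symm
    obtain ⟨_, E1, E2, e1, e2, e3, e4, e5⟩ := h1
    obtain ⟨_, T1, T2, t1, t2, t3, t4, t5⟩ := hT
    refine ⟨r', m, t, S', E ∪ T, by omega, h2, ?_, ?_⟩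
    · refine ⟨a, a, {a}, E1, E2, T2, T1, hmt, Rc.rfl' (by simp), e1, e2, t2, t1, by simpa using hma,
        by simpa using hat, by simp, by simp, by simp, by simp, ?_, ?_, ?_, ?_, e4.trans subset_union_left,
        e5.trans subset_union_left, t5.trans subset_union_right, t4.trans subset_union_right⟩
      · intro z hz hz'
        rcases e3 z hz hz' with h | h
        · right; simpa using h
        · left; exact h
      · intro z hz hz'
        rcases t3 z hz' hz with h | h
        · left; exact h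
        · right; simpa using h
      · intro z hz hz'
        have hzE : z ∈ E := by
          rcases hz with h | h
          · exact e4 h
          · exact e5 h
        have hzT : z ∈ T := by
          rcases hz' with h | h
          · exact t5 h
          · exact t4 h
        rcases hST z (mem_union_left _ hzE) hzT with h | h
        · simpa using h
        · exact absurd (h ▸ hzE) htE
      · intro z hz
        have : z = a := by simpa using hz
        rw [this]
        exact mem_union_left _ (e4 e1.left)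
    · intro x hx hx'
      rcases mem_union.mp hx' with h | h
      · left; exact h3 x h hx
      · rcases hST x (mem_union_right _ hx) h with h | h
        · exact absurd (h ▸ hx) haS
        · right; exact h

theorem Rc.fn' {S : Finset V} {u v : V} (h : Rc R S u v) (hne : u ≠ v) :
    ∃ (n : ℕ) (f : ℕ → V), 1 ≤ n ∧ f 0 = u ∧ f n = v ∧ (∀ k, k < n → R (f k) (f (k + 1))) ∧
      (∀ k, 0 < k → k < n → f k ∈ S ∧ f k ≠ u ∧ f k ≠ v) ∧
      (∀ k k', k ≤ n → k' ≤ n → f k = f k' → k = k') := by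
  obtain ⟨l, hp, hl⟩ := h.pth hne
  obtain ⟨n, f, a1, a2, a3, a4, a5, a6⟩ := hp.fn
  refine ⟨n, f, a1, a2, a3, a4, ?_, a6⟩
  intro k h0 hk
  have := a5 k h0 hk
  exact ⟨hl _ this, fun h => hp.not_mem_left (h ▸ this), fun h => hp.not_mem_right (h ▸ this)⟩

theorem Rc.fn0 {S : Finset V} {u v : V} (h : Rc R S u v) :
    ∃ (n : ℕ) (f : ℕ → V), f 0 = u ∧ f n = v ∧ (∀ k, k < n → R (f k) (f (k + 1))) ∧
      (∀ k, k ≤ n → f k ∈ S) ∧ (∀ k k', k ≤ n → k' ≤ n → f k = f k' → k = k') := by
  by_cases huv : u = v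
  · refine ⟨0, fun _ => u, rfl, huv, by simp, fun _ _ => h.left, fun k k' h1 h2 _ => by omega⟩
  · obtain ⟨n, f, a1, a2, a3, a4, a5, a6⟩ := Rc.fn' h huv
    refine ⟨n, f, a2, a3, a4, ?_, a6⟩
    intro k hk
    rcases Nat.eq_zero_or_pos k with h0 | h0
    · rw [h0, a2]; exact h.left
    · rcases Nat.lt_or_ge k n with h1 | h1
      · exact (a5 k h0 h1).1
      · have : k = n := by omega
        rw [this, a3]; exact h.right

/-- the conclusion of the frozen statement, where one branch vertex may be a directed path -/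
def ConclN (R : V → V → Prop) : Prop :=
  ∃ (ℓ : ℕ) (m : ℕ) (N : ℕ → V) (a b : ℕ → V) (n : ℕ → Bool → ℕ) (P : ℕ → Bool → ℕ → V),
    3 ≤ ℓ ∧
    a 0 = N 0 ∧ b 0 = N m ∧ (∀ k, k < m → R (N k) (N (k + 1))) ∧
    (∀ k k', k ≤ m → k' ≤ m → N k = N k' → k = k') ∧
    (∀ i, 0 < i → i < ℓ → a i = b i) ∧
    (∀ i j, 0 < i → i < ℓ → 0 < j → j < ℓ → b i = b j → i = j) ∧
    (∀ i k, 0 < i → i < ℓ → k ≤ m → b i ≠ N k) ∧
    (∀ i, i < ℓ → ∀ d, 1 ≤ n i d) ∧
    (∀ i, i < ℓ →
      P i false 0 = b i ∧ P i false (n i false) = a ((i + 1) % ℓ) ∧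
      P i true 0 = b ((i + 1) % ℓ) ∧ P i true (n i true) = a i) ∧
    (∀ i, i < ℓ → ∀ d, ∀ k, k < n i d → R (P i d k) (P i d (k + 1))) ∧
    (∀ i, i < ℓ → ∀ d, ∀ k, 0 < k → k < n i d →
      (∀ j, j < ℓ → P i d k ≠ b j) ∧ (∀ j, j ≤ m → P i d k ≠ N j)) ∧
    (∀ i d k i' d' k', i < ℓ → i' < ℓ → 0 < k → k < n i d → 0 < k' → k' < n i' d' →
      P i d k = P i' d' k' → i = i' ∧ d = d' ∧ k = k')

theorem two_cases {A B : Finset V} {d d' : Bool} (h : d ≠ d') {z : V}
    (hz : z ∈ (if d then A else B)) (hz' : z ∈ (if d' then A else B)) : z ∈ A ∧ z ∈ B := by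
  cases d <;> cases d'
  · exact absurd rfl h
  · exact ⟨by simpa using hz', by simpa using hz⟩
  · exact ⟨by simpa using hz, by simpa using hz'⟩
  · exact absurd rfl h

/-- assembling the paths -/
theorem assemble (ℓ m : ℕ) (N a b : ℕ → V) (F : ℕ → Bool → Finset V) (src tgt : ℕ → Bool → V)
    (hℓ : 3 ≤ ℓ) (ha0 : a 0 = N 0) (hb0 : b 0 = N m) (hN : ∀ k, k < m → R (N k) (N (k + 1)))
    (hNi : ∀ k k', k ≤ m → k' ≤ m → N k = N k' → k = k')
    (hab : ∀ i, 0 < i → i < ℓ → a i = b i)
    (hbi : ∀ i j, 0 < i → i < ℓ → 0 < j → j < ℓ → b i = b j → i = j)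
    (hbN : ∀ i k, 0 < i → i < ℓ → k ≤ m → b i ≠ N k)
    (s1 : ∀ i, i < ℓ → src i false = b i) (s2 : ∀ i, i < ℓ → tgt i false = a ((i + 1) % ℓ))
    (s3 : ∀ i, i < ℓ → src i true = b ((i + 1) % ℓ)) (s4 : ∀ i, i < ℓ → tgt i true = a i)
    (hR : ∀ i, i < ℓ → ∀ d, Rc R (F i d) (src i d) (tgt i d))
    (hne : ∀ i, i < ℓ → ∀ d, src i d ≠ tgt i d)
    (hd : ∀ i d i' d', i < ℓ → i' < ℓ → (i ≠ i' ∨ d ≠ d') → ∀ x ∈ F i d, x ∈ F i' d' →
      (x = src i d ∨ x = tgt i d) ∨ (x = src i' d' ∨ x = tgt i' d'))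
    (hj : ∀ i, i < ℓ → ∀ d, ∀ j, j < ℓ → b j ∈ F i d → b j = src i d ∨ b j = tgt i d)
    (hk : ∀ i, i < ℓ → ∀ d, ∀ k, k ≤ m → N k ∈ F i d → N k = src i d ∨ N k = tgt i d) :
    ConclN R := by
  have hch : ∀ i d, ∃ (n : ℕ) (f : ℕ → V), i < ℓ → (1 ≤ n ∧ f 0 = src i d ∧ f n = tgt i d ∧
      (∀ k, k < n → R (f k) (f (k + 1))) ∧
      (∀ k, 0 < k → k < n → f k ∈ F i d ∧ f k ≠ src i d ∧ f k ≠ tgt i d) ∧
      (∀ k k', k ≤ n → k' ≤ n → f k = f k' → k = k')) := by
    intro i d
    by_cases hi : i < ℓ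
    · obtain ⟨n, f, h⟩ := Rc.fn' (hR i hi d) (hne i hi d)
      exact ⟨n, f, fun _ => h⟩
    · exact ⟨0, N, fun h => absurd h hi⟩
  choose n P hnP using hch
  refine ⟨ℓ, m, N, a, b, n, P, hℓ, ha0, hb0, hN, hNi, hab, hbi, hbN, ?_, ?_, ?_, ?_, ?_⟩
  · intro i hi d; exact (hnP i d hi).1
  · intro i hi
    refine ⟨?_, ?_, ?_, ?_⟩
    · rw [(hnP i false hi).2.1, s1 i hi]
    · rw [(hnP i false hi).2.2.1, s2 i hi]
    · rw [(hnP i true hi).2.1, s3 i hi]
    · rw [(hnP i true hi).2.2.1, s4 i hi]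
  · intro i hi d; exact (hnP i d hi).2.2.2.1
  · intro i hi d k h0 hkn
    obtain ⟨h1, h2, h3⟩ := (hnP i d hi).2.2.2.2.1 k h0 hkn
    refine ⟨?_, ?_⟩
    · intro j hjℓ he
      rcases hj i hi d j hjℓ (he ▸ h1) with h | h
      · exact h2 (he.trans h)
      · exact h3 (he.trans h)
    · intro j hjm he
      rcases hk i hi d j hjm (he ▸ h1) with h | h
      · exact h2 (he.trans h)
      · exact h3 (he.trans h)
  · intro i d k i' d' k' hi hi' h0 hkn h0' hkn' he
    obtain ⟨h1, h2, h3⟩ := (hnP i d hi).2.2.2.2.1 k h0 hkn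
    obtain ⟨h1', h2', h3'⟩ := (hnP i' d' hi').2.2.2.2.1 k' h0' hkn'
    by_cases hii : i = i' ∧ d = d'
    · obtain ⟨rfl, rfl⟩ := hii
      exact ⟨rfl, rfl, (hnP i d hi).2.2.2.2.2 k k' hkn.le hkn'.le he⟩
    · exfalso
      have hor : i ≠ i' ∨ d ≠ d' := by
        by_contra hcon
        push Not at hcon
        exact hii hcon
      rcases hd i d i' d' hi hi' hor _ h1 (he ▸ h1') with (h | h) | (h | h)
      · exact h2 h
      · exact h3 h
      · exact h2' (he ▸ h)
      · exact h3' (he ▸ h)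

theorem NR.concl (h : NR R) : ConclN R := by
  obtain ⟨r, m, t, S, T, hr, hch, hNL, hST⟩ := h
  obtain ⟨j, E, h0, hjr, h1, h2, h3, h4⟩ := hch.fn
  obtain ⟨x, y, NN, A1, A2, B1, B2, hmt, rN, rA1, rA2, rB1, rB2, hmN, htN, iA1, iA2, iB1, iB2, iAA, iBB,
    iAB, sN, sA1, sA2, sB1, sB2⟩ := hNL
  obtain ⟨q, N, n1, n2, n3, n4, n5⟩ := Rc.fn0 rN
  -- injectivity of the joints
  have inj' : ∀ i i', i < i' → i' ≤ r → j i ≠ j i' := by
    intro i i' hii hi' he
    by_cases h5 : i' = i + 1
    · subst h5; exact (h1 i (by omega)).ne he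
    · have hL := (h1 i (by omega)).left
      have hR := (h1 (i' - 1) (by omega)).right
      have h6 : i' - 1 + 1 = i' := by omega
      rw [h6, ← he] at hR
      have h7 := h4 i (i' - 1) (by omega) (by omega) (j i) hL hR
      have h8 : i' - 1 = i + 1 := h7.1
      rw [h8] at h7
      exact (h1 i (by omega)).ne h7.2
  have inj : ∀ i i', i ≤ r → i' ≤ r → j i = j i' → i = i' := by
    intro i i' hi hi' he
    rcases lt_trichotomy i i' with h | h | h
    · exact absurd he (inj' i i' h hi')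
    · exact h
    · exact absurd he.symm (inj' i' i h hi)
  have hgamma : ∀ i k, i < r → k ≤ r → j k ∈ E i → k = i ∨ k = i + 1 := by
    intro i k hir hk hm
    rcases lt_trichotomy k i with h | h | h
    · exfalso
      have := h4 k i h hir (j k) (h1 k (by omega)).left hm
      exact absurd (inj k i (by omega) (by omega) this.2) (by omega)
    · exact Or.inl h
    · by_cases h5 : k = i + 1
      · exact Or.inr h5
      · exfalso
        have hR := (h1 (k - 1) (by omega)).right
        have h6 : k - 1 + 1 = k := by omega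
        rw [h6] at hR
        have := h4 i (k - 1) (by omega) (by omega) (j k) hm hR
        exact absurd (inj k (k - 1) (by omega) (by omega) this.2) (by omega)
  -- the two paths of each link
  have hln : ∀ i, ∃ S1 S2 : Finset V, i < r → (Rc R S1 (j i) (j (i + 1)) ∧ Rc R S2 (j (i + 1)) (j i) ∧
      (∀ z ∈ S1, z ∈ S2 → z = j i ∨ z = j (i + 1)) ∧ S1 ⊆ E i ∧ S2 ⊆ E i) := by
    intro i
    by_cases hi : i < r
    · obtain ⟨_, S1, S2, h⟩ := h1 i hi
      exact ⟨S1, S2, fun _ => h⟩
    · exact ⟨∅, ∅, fun h => absurd h hi⟩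
  choose L1 L2 hL using hln
  have hyN : y ∈ NN := rN.right
  have hxN : x ∈ NN := rN.left
  have hNT : ∀ k, k ≤ q → N k ∈ T := fun k hk => sN (n4 k hk)
  have hjS : ∀ k, k ≤ r → j k ∈ S := h3
  -- the neck is disjoint from the chain
  have hNS : ∀ z ∈ NN, z ∉ S := by
    intro z hz hzS
    rcases hST z hzS (sN hz) with h | h
    · exact hmN (h ▸ hz)
    · exact htN (h ▸ hz)
  obtain ⟨src, hsrc⟩ : ∃ src : ℕ → Bool → V, src = fun i d => if d then
      (if i = 0 then m else if i = r + 1 then y else j i) else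
      (if i = 0 then y else if i = r + 1 then t else j (i - 1)) := ⟨_, rfl⟩
  obtain ⟨tgt, htgt⟩ : ∃ tgt : ℕ → Bool → V, tgt = fun i d => if d then
      (if i = 0 then x else if i = r + 1 then t else j (i - 1)) else
      (if i = 0 then m else if i = r + 1 then x else j i) := ⟨_, rfl⟩
  obtain ⟨F, hF⟩ : ∃ F : ℕ → Bool → Finset V, F = fun i d => if d then
      (if i = 0 then A2 else if i = r + 1 then B1 else L2 (i - 1)) else
      (if i = 0 then A1 else if i = r + 1 then B2 else L1 (i - 1)) := ⟨_, rfl⟩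
  obtain ⟨a, ha⟩ : ∃ a : ℕ → V, a = fun i => if i = 0 then x else j (i - 1) := ⟨_, rfl⟩
  obtain ⟨b, hb⟩ : ∃ b : ℕ → V, b = fun i => if i = 0 then y else j (i - 1) := ⟨_, rfl⟩
  have hcase : ∀ i, i < r + 2 → i = 0 ∨ i = r + 1 ∨ (0 < i ∧ i ≤ r) := by intro i hi; omega
  -- regions
  have hreg : ∀ i, 0 < i → i ≤ r → ∀ d, F i d ⊆ E (i - 1) ∧ src i d = (if d then j i else j (i - 1)) ∧
      tgt i d = (if d then j (i - 1) else j i) := by
    intro i h0 hi d
    have e1 : i ≠ 0 := by omega
    have e2 : i ≠ r + 1 := by omega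
    have := hL (i - 1) (by omega)
    subst hF hsrc htgt
    cases d
    · simp only [Bool.false_eq_true, if_false, e1, e2]
      exact ⟨this.2.2.2.1, trivial, trivial⟩
    · simp only [if_true, e1, if_false, e2]
      exact ⟨this.2.2.2.2, trivial, trivial⟩
  have hFm : ∀ i, 0 < i → i ≤ r → ∀ d, F i d = if d then L2 (i - 1) else L1 (i - 1) := by
    intro i h0 hi d
    have e1 : i ≠ 0 := by omega
    have e2 : i ≠ r + 1 := by omega
    subst hF
    simp only [e1, e2, if_false]
  have hregS : ∀ i, 0 < i → i ≤ r → ∀ d, F i d ⊆ S := by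
    intro i h0 hi d
    exact (hreg i h0 hi d).1.trans (h2 _ (by omega))
  have hends : ∀ i, 0 < i → i ≤ r → ∀ d, ∀ z, z = j (i - 1) ∨ z = j i → z = src i d ∨ z = tgt i d := by
    intro i h0 hi d z hz
    rw [(hreg i h0 hi d).2.1, (hreg i h0 hi d).2.2]
    cases d
    · simpa using hz
    · simpa using hz.symm
  have hjE : ∀ i, 0 < i → i ≤ r → ∀ k, k ≤ r → j k ∈ E (i - 1) → ∀ d, j k = src i d ∨ j k = tgt i d := by
    intro i h0 hi k hk hm d
    apply hends i h0 hi d
    rcases hgamma (i - 1) k (by omega) hk hm with h | h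
    · left; rw [h]
    · right; congr 1; omega
  have hF0 : ∀ d, F 0 d = if d then A2 else A1 := by intro d; subst hF; cases d <;> simp
  have hFr : ∀ d, F (r + 1) d = if d then B1 else B2 := by intro d; subst hF; cases d <;> simp
  have hs0 : ∀ d, src 0 d = if d then m else y := by intro d; subst hsrc; cases d <;> simp
  have hsr : ∀ d, src (r + 1) d = if d then y else t := by intro d; subst hsrc; cases d <;> simp
  have ht0 : ∀ d, tgt 0 d = if d then x else m := by intro d; subst htgt; cases d <;> simp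
  have htr : ∀ d, tgt (r + 1) d = if d then t else x := by intro d; subst htgt; cases d <;> simp
  have hA : ∀ d, ∀ z ∈ F 0 d, (z ∈ A1 ∨ z ∈ A2) ∧ z ∈ T := by
    intro d z hz
    rw [hF0] at hz
    cases d
    · simp only [Bool.false_eq_true, if_false] at hz
      exact ⟨Or.inl hz, sA1 hz⟩
    · simp only [if_true] at hz
      exact ⟨Or.inr hz, sA2 hz⟩
  have hB : ∀ d, ∀ z ∈ F (r + 1) d, (z ∈ B1 ∨ z ∈ B2) ∧ z ∈ T := by
    intro d z hz
    rw [hFr] at hz
    cases d
    · simp only [Bool.false_eq_true, if_false] at hz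
      exact ⟨Or.inr hz, sB2 hz⟩
    · simp only [if_true] at hz
      exact ⟨Or.inl hz, sB1 hz⟩
  -- elements of the neck in the outer regions
  have hAN : ∀ d, ∀ z ∈ F 0 d, z ∈ NN → z = src 0 d ∨ z = tgt 0 d := by
    intro d z hz hzN
    rw [hF0] at hz
    rw [hs0, ht0]
    cases d
    · simp only [Bool.false_eq_true, if_false] at hz ⊢
      exact Or.inl (iA1 z hz hzN)
    · simp only [if_true] at hz ⊢
      exact Or.inr (iA2 z hz hzN)
  have hBN : ∀ d, ∀ z ∈ F (r + 1) d, z ∈ NN → z = src (r + 1) d ∨ z = tgt (r + 1) d := by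
    intro d z hz hzN
    rw [hFr] at hz
    rw [hsr, htr]
    cases d
    · simp only [Bool.false_eq_true, if_false] at hz ⊢
      exact Or.inr (iB2 z hz hzN)
    · simp only [if_true] at hz ⊢
      exact Or.inl (iB1 z hz hzN)
  -- elements of the chain in the outer regions
  have htA : t ∉ A1 ∧ t ∉ A2 := by
    refine ⟨fun h => htN (iAB t (Or.inl h) (Or.inl rB1.right)), fun h => htN (iAB t (Or.inr h) (Or.inl rB1.right))⟩
  have hmB : m ∉ B1 ∧ m ∉ B2 := by
    refine ⟨fun h => hmN (iAB m (Or.inl rA1.right) (Or.inl h)), fun h => hmN (iAB m (Or.inl rA1.right) (Or.inr h))⟩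
  have hAS : ∀ d, ∀ z ∈ F 0 d, z ∈ S → z = m := by
    intro d z hz hzS
    rcases hST z hzS (hA d z hz).2 with h | h
    · exact h
    · subst h
      rcases (hA d z hz).1 with h | h
      · exact absurd h htA.1
      · exact absurd h htA.2
  have hBS : ∀ d, ∀ z ∈ F (r + 1) d, z ∈ S → z = t := by
    intro d z hz hzS
    rcases hST z hzS (hB d z hz).2 with h | h
    · subst h
      rcases (hB d z hz).1 with h | h
      · exact absurd h hmB.1
      · exact absurd h hmB.2
    · exact h
  have hmE : ∀ d, m = src 0 d ∨ m = tgt 0 d := by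
    intro d; rw [hs0, ht0]; cases d <;> simp
  have htE : ∀ d, t = src (r + 1) d ∨ t = tgt (r + 1) d := by
    intro d; rw [hsr, htr]; cases d <;> simp
  have hb0 : b 0 = y := by subst hb; simp
  have hbs : ∀ i, 0 < i → b i = j (i - 1) := by
    intro i hi; subst hb; simp [show i ≠ 0 by omega]
  have ha0 : a 0 = x := by subst ha; simp
  have has : ∀ i, 0 < i → a i = j (i - 1) := by
    intro i hi; subst ha; simp [show i ≠ 0 by omega]
  refine assemble (r + 2) q N a b F src tgt (by omega) (by rw [ha0, n1]) (by rw [hb0, n2]) n3 n5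
    (fun i hi _ => by rw [has i hi, hbs i hi]) ?_ ?_ ?_ ?_ ?_ ?_ ?_ ?_ ?_ ?_ ?_
  · intro i i' hi hi2 hi' hi2' he
    rw [hbs i hi, hbs i' hi'] at he
    have := inj _ _ (by omega) (by omega) he
    omega
  · intro i k hi hi2 hk he
    rw [hbs i hi] at he
    exact hNS (N k) (n4 k hk) (he ▸ hjS (i - 1) (by omega))
  · -- s1
    intro i hi
    rcases hcase i hi with h | h | ⟨h, h'⟩
    · subst h; rw [hs0, hb0]; simp
    · subst h; rw [hsr, hbs _ (by omega)]; simp [hjr]
    · rw [(hreg i h h' false).2.1, hbs i h]; simp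
  · -- s2
    intro i hi
    rcases hcase i hi with h | h | ⟨h, h'⟩
    · subst h; rw [ht0, show (0 + 1) % (r + 2) = 1 from Nat.mod_eq_of_lt (by omega), has 1 (by omega)]; simp [h0]
    · subst h; rw [htr, show (r + 1 + 1) % (r + 2) = 0 from Nat.mod_self _, ha0]; simp
    · rw [(hreg i h h' false).2.2, show (i + 1) % (r + 2) = i + 1 from Nat.mod_eq_of_lt (by omega),
        has (i + 1) (by omega)]; simp
  · -- s3
    intro i hi
    rcases hcase i hi with h | h | ⟨h, h'⟩
    · subst h; rw [hs0, show (0 + 1) % (r + 2) = 1 from Nat.mod_eq_of_lt (by omega), hbs 1 (by omega)]; simp [h0]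
    · subst h; rw [hsr, show (r + 1 + 1) % (r + 2) = 0 from Nat.mod_self _, hb0]; simp
    · rw [(hreg i h h' true).2.1, show (i + 1) % (r + 2) = i + 1 from Nat.mod_eq_of_lt (by omega),
        hbs (i + 1) (by omega)]; simp
  · -- s4
    intro i hi
    rcases hcase i hi with h | h | ⟨h, h'⟩
    · subst h; rw [ht0, ha0]; simp
    · subst h; rw [htr, has _ (by omega)]; simp [hjr]
    · rw [(hreg i h h' true).2.2, has i h]; simp
  · -- hR
    intro i hi d
    rcases hcase i hi with h | h | ⟨h, h'⟩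
    · subst h; rw [hF0, hs0, ht0]
      cases d
      · simpa using rA1
      · simpa using rA2
    · subst h; rw [hFr, hsr, htr]
      cases d
      · simpa using rB2
      · simpa using rB1
    · have hl := hL (i - 1) (by omega)
      have e : i - 1 + 1 = i := by omega
      rw [e] at hl
      have e1 : i ≠ 0 := by omega
      have e2 : i ≠ r + 1 := by omega
      subst hF hsrc htgt
      cases d
      · simp only [Bool.false_eq_true, if_false, e1, e2]; exact hl.1
      · simp only [if_true, if_false, e1, e2]; exact hl.2.1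
  · -- hne
    intro i hi d
    rcases hcase i hi with h | h | ⟨h, h'⟩
    · subst h; rw [hs0, ht0]
      cases d
      · simp only [Bool.false_eq_true, if_false]; rintro rfl; exact hmN hyN
      · simp only [if_true]; rintro rfl; exact hmN hxN
    · subst h; rw [hsr, htr]
      cases d
      · simp only [Bool.false_eq_true, if_false]; rintro rfl; exact htN hxN
      · simp only [if_true]; rintro rfl; exact htN hyN
    · have e : i - 1 + 1 = i := by omega
      have := (h1 (i - 1) (by omega)).ne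
      rw [e] at this
      rw [(hreg i h h' d).2.1, (hreg i h h' d).2.2]
      cases d
      · simpa using this
      · simpa using this.symm
  · -- hd
    have sym : ∀ i d i' d', i < r + 2 → i' < r + 2 → i ≤ i' → (i ≠ i' ∨ d ≠ d') → ∀ x ∈ F i d, x ∈ F i' d' →
        (x = src i d ∨ x = tgt i d) ∨ (x = src i' d' ∨ x = tgt i' d') := by
      intro i d i' d' hi hi' hii hor z hz hz'
      rcases hcase i hi with h | h | ⟨h, h'⟩
      · subst h
        rcases hcase i' hi' with g | g | ⟨g, g'⟩
        · subst g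
          have hdd : d ≠ d' := by simpa using hor
          have hz12 : z ∈ A2 ∧ z ∈ A1 := two_cases hdd (hF0 d ▸ hz) (hF0 d' ▸ hz')
          rcases iAA z hz12.2 hz12.1 with h | h
          · subst h; exact Or.inl (hmE d)
          · exact Or.inl (hAN d z hz h)
        · subst g
          exact Or.inl (hAN d z hz (iAB z (hA d z hz).1 (hB d' z hz').1))
        · have := hAS d z hz (hregS i' g g' d' hz')
          subst this
          exact Or.inl (hmE d)
      · subst h
        have g : i' = r + 1 := by omega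
        subst g
        have hdd : d ≠ d' := by simpa using hor
        have hz12 : z ∈ B1 ∧ z ∈ B2 := two_cases hdd (hFr d ▸ hz) (hFr d' ▸ hz')
        rcases iBB z hz12.1 hz12.2 with h | h
        · subst h; exact Or.inl (htE d)
        · exact Or.inl (hBN d z hz h)
      · rcases hcase i' hi' with g | g | ⟨g, g'⟩
        · omega
        · subst g
          have := hBS d' z hz' (hregS i h h' d hz)
          subst this
          exact Or.inr (htE d')
        · have hzE := (hreg i h h' d).1 hz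
          have hzE' := (hreg i' g g' d').1 hz'
          by_cases hiii : i = i'
          · subst hiii
            have hdd : d ≠ d' := by simpa using hor
            have hl := hL (i - 1) (by omega)
            have e : i - 1 + 1 = i := by omega
            rw [e] at hl
            have hz12 : z ∈ L2 (i - 1) ∧ z ∈ L1 (i - 1) :=
              two_cases hdd (hFm i h h' d ▸ hz) (hFm i h h' d' ▸ hz')
            exact Or.inl (hends i h h' d z (hl.2.2.1 z hz12.2 hz12.1))
          · have := h4 (i - 1) (i' - 1) (by omega) (by omega) z hzE hzE'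
            right
            apply hends i' g g' d' z
            left; exact this.2
    intro i d i' d' hi hi' hor z hz hz'
    rcases le_total i i' with h | h
    · exact sym i d i' d' hi hi' h hor z hz hz'
    · exact (sym i' d' i d hi' hi h (by rcases hor with h | h; exact Or.inl h.symm; exact Or.inr h.symm)
        z hz' hz).symm
  · -- hj
    intro i hi d k hk hm
    rcases hcase i hi with h | h | ⟨h, h'⟩
    · subst h
      rcases Nat.eq_zero_or_pos k with h | h
      · subst h
        rw [hb0] at hm ⊢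
        exact hAN d y hm hyN
      · rw [hbs k h] at hm ⊢
        have := hAS d _ hm (hjS _ (by omega))
        rw [this]; exact hmE d
    · subst h
      rcases Nat.eq_zero_or_pos k with h | h
      · subst h
        rw [hb0] at hm ⊢
        exact hBN d y hm hyN
      · rw [hbs k h] at hm ⊢
        have := hBS d _ hm (hjS _ (by omega))
        rw [this]; exact htE d
    · rcases Nat.eq_zero_or_pos k with g | g
      · subst g
        rw [hb0] at hm
        exact absurd (hregS i h h' d hm) (hNS y hyN)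
      · rw [hbs k g] at hm ⊢
        exact hjE i h h' (k - 1) (by omega) ((hreg i h h' d).1 hm) d
  · -- hk
    intro i hi d k hk hm
    rcases hcase i hi with h | h | ⟨h, h'⟩
    · subst h; exact hAN d _ hm (n4 k hk)
    · subst h; exact hBN d _ hm (n4 k hk)
    · exact absurd (hregS i h h' d hm) (hNS _ (n4 k hk))

end Pool.Agent.Lib.PR
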