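import Mathlib
import Pool.Agent.Lib.PR.Odd1

set_option autoImplicit false

/-! Minimal closed sets, good arcs, and CLAIM R: everything in a minimal closed set is reachable by good arcs. -/

namespace Pool.Agent.Lib.PR

open Finset Pool.Agent.Lib.NK
open scoped Classical

variable {V : Type*} {R : V → V → Prop} {W M : Finset V} {f : V → Bool} {x : V}

/-- `M` is closed: no dicycle meets `M` in one vertex `y` and is otherwise coloured opposite to `y` -/
def Cl (R : V → V → Prop) (W : Finset V) (f : V → Bool) (M : Finset V) : Prop :=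
  ∀ y ∈ M, ∀ C, DC R C → C ⊆ W → y ∈ C → (∀ v ∈ C, v ∈ M → v = y) →
    (∀ v ∈ C, v ≠ y → f v = !f y) → False

/-- `C` is the dicycle of a good arc from `y` to `z` -/
def GA (R : V → V → Prop) (W : Finset V) (f : V → Bool) (M : Finset V) (y z : V) (C : Finset V) : Prop :=
  y ∈ M ∧ z ∈ M ∧ y ≠ z ∧ DC R C ∧ C ⊆ W ∧ y ∈ C ∧ z ∈ C ∧ (∀ v ∈ C, v ∈ M → v = y ∨ v = z) ∧
    (∀ v ∈ C, v ≠ y → f v = !f y)

def Gd (R : V → V → Prop) (W : Finset V) (f : V → Bool) (M : Finset V) (y z : V) : Prop :=
  ∃ C, GA R W f M y z C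

structure Mn (R : V → V → Prop) (W : Finset V) (f : V → Bool) (x : V) (M : Finset V) : Prop where
  xM : x ∈ M
  MW : M ⊆ W
  cl : Cl R W f M
  mn : ∀ M', M' ⊆ M → x ∈ M' → Cl R W f M' → M' = M
  h0 : ∀ C, DC R C → C ⊆ W → x ∉ C → ∀ κ, ¬ ∀ v ∈ C, f v = κ

theorem bool_ne {a : Bool} (h : (!a) = a) : False := by cases a <;> simp at h

theorem GA.col {y z : V} {C : Finset V} (h : GA R W f M y z C) : f z = !f y :=
  h.2.2.2.2.2.2.2.2 z h.2.2.2.2.2.2.1 h.2.2.1.symm

theorem Mn.arc (h : Mn R W f x M) {a b : V} (ha : a ∈ M) (hb : b ∈ M) (hbx : b ≠ x) {Q : Finset V}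
    (hQ : DC R Q) (hQW : Q ⊆ W) (hQM : ∀ v ∈ Q, v ∈ M → v = a ∨ v = b)
    (hcol : ∀ v ∈ Q, v ≠ a → f v = !f a) (hab : f b = !f a) : GA R W f M a b Q := by
  have hne : a ≠ b := by rintro rfl; exact bool_ne hab.symm
  have haQ : a ∈ Q := by
    by_contra haQ
    refine h.h0 Q hQ hQW ?_ (!f a) ?_
    · intro hx
      rcases hQM x hx h.xM with h1 | h1
      · exact haQ (h1 ▸ hx)
      · exact hbx h1.symm
    · intro v hv
      exact hcol v hv (by rintro rfl; exact haQ hv)
  have hbQ : b ∈ Q := by
    by_contra hbQ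
    refine h.cl a ha Q hQ hQW haQ ?_ hcol
    intro v hv hvM
    rcases hQM v hv hvM with h1 | h1
    · exact h1
    · exact absurd (h1 ▸ hv) hbQ
  exact ⟨ha, hb, hne, hQ, hQW, haQ, hbQ, hQM, hcol⟩

theorem path_fn {r : V → V → Prop} {a b : V} (h : Relation.ReflTransGen r a b) :
    ∃ (m : ℕ) (p : ℕ → V), p 0 = a ∧ p m = b ∧ ∀ i, i < m → r (p i) (p (i + 1)) := by
  induction h with
  | refl => exact ⟨0, fun _ => a, rfl, rfl, by simp⟩
  | @tail c d _ hcd ih =>
    obtain ⟨m, p, h0, hm, hs⟩ := ih
    refine ⟨m + 1, fun k => if k ≤ m then p k else d, by simpa using h0, by simp, ?_⟩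
    intro i hi
    by_cases h1 : i + 1 ≤ m
    · have h2 : i ≤ m := by omega
      simp only [h1, h2, if_true]
      exact hs i (by omega)
    · have h2 : i = m := by omega
      subst h2
      simp only [le_refl, if_true, h1, if_false]
      rw [hm]
      exact hcd

/-- replacing a part of a path by one arc -/
theorem shortcut {r : V → V → Prop} {m : ℕ} {p : ℕ → V} (hp : ∀ i, i < m → r (p i) (p (i + 1)))
    {i j : ℕ} (hij : i < j) (hjm : j ≤ m) (ha : r (p i) (p j)) :
    ∃ q : ℕ → V, q 0 = p 0 ∧ q (m - (j - i - 1)) = p m ∧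
      ∀ k, k < m - (j - i - 1) → r (q k) (q (k + 1)) := by
  refine ⟨fun k => if k ≤ i then p k else p (k + (j - i - 1)), by simp, ?_, ?_⟩
  · have h1 : ¬ (m - (j - i - 1) ≤ i) := by omega
    simp only [h1, if_false]
    congr 1
    omega
  · intro k hk
    by_cases h1 : k + 1 ≤ i
    · have h2 : k ≤ i := by omega
      simp only [h1, h2, if_true]
      exact hp k (by omega)
    · by_cases h2 : k ≤ i
      · have h3 : k = i := by omega
        subst h3
        simp only [le_refl, if_true, h1, if_false]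
        have h4 : k + 1 + (j - k - 1) = j := by omega
        rw [h4]
        exact ha
      · simp only [h1, h2, if_false]
        have h4 : k + 1 + (j - i - 1) = k + (j - i - 1) + 1 := by omega
        rw [h4]
        exact hp _ (by omega)

/-- CLAIM R -/
theorem Mn.reach (hirr : ∀ v, ¬ R v v) (hN : ¬ NRo R) (h : Mn R W f x M) :
    ∀ z ∈ M, Relation.ReflTransGen (Gd R W f M) x z := by
  by_contra hcon
  push Not at hcon
  obtain ⟨z0, hz0, hz0r⟩ := hcon
  -- a minimal nonempty set closed under predecessors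
  obtain ⟨Z, hZ, hZmin⟩ := exists_min_image
    ((M.erase x).powerset.filter (fun Z => Z.Nonempty ∧ ∀ z ∈ Z, ∀ y, Gd R W f M y z → y ∈ Z)) card
    ⟨M.filter (fun z => ¬ Relation.ReflTransGen (Gd R W f M) x z), by
      simp only [mem_filter, mem_powerset]
      refine ⟨?_, ⟨z0, by simp [hz0, hz0r]⟩, ?_⟩
      · intro z hz
        rw [mem_filter] at hz
        rw [mem_erase]
        refine ⟨?_, hz.1⟩
        rintro rfl
        exact hz.2 Relation.ReflTransGen.refl
      · intro z hz y hy
        have hyM : y ∈ M := by obtain ⟨C, hC⟩ := hy; exact hC.1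
        refine ⟨hyM, fun hr => hz.2 (hr.tail hy)⟩⟩
  simp only [mem_filter, mem_powerset] at hZ hZmin
  obtain ⟨hZM', hZne, hZp⟩ := hZ
  have hZM : Z ⊆ M := hZM'.trans (erase_subset _ _)
  have hxZ : x ∉ Z := fun hx => (mem_erase.mp (hZM' hx)).1 rfl
  have hanc : ∀ z' ∈ Z, ∀ z ∈ Z, Relation.ReflTransGen (Gd R W f M) z z' := by
    intro z' hz'
    have hA : Z.filter (fun z => Relation.ReflTransGen (Gd R W f M) z z') = Z := by
      apply eq_of_subset_of_card_le (filter_subset _ _)
      apply hZmin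
      refine ⟨(filter_subset _ _).trans hZM', ⟨z', by simp [hz', Relation.ReflTransGen.refl]⟩, ?_⟩
      intro z hz y hy
      rw [mem_filter] at hz ⊢
      exact ⟨hZp z hz.1 y hy, Relation.ReflTransGen.head hy hz.2⟩
    intro z hz
    rw [← hA] at hz
    exact (mem_filter.mp hz).2
  -- candidates
  obtain ⟨Cand, hCand⟩ : ∃ Cand : Finset V → V → Prop, Cand = fun C y => DC R C ∧ C ⊆ W ∧ y ∈ M ∧ y ∉ Z ∧
      y ∈ C ∧ (∀ v ∈ C, v ∈ M → v = y ∨ v ∈ Z) ∧ (∀ v ∈ C, v ≠ y → f v = !f y) ∧ ∃ z ∈ C, z ∈ Z := ⟨_, rfl⟩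
  have hex : ∃ n, ∃ C y, Cand C y ∧ (C ∩ Z).card = n := by
    have hnc : ¬ Cl R W f (M \ Z) := by
      intro hcl
      have := h.mn (M \ Z) sdiff_subset (mem_sdiff.mpr ⟨h.xM, hxZ⟩) hcl
      obtain ⟨z, hz⟩ := hZne
      have h1 : z ∈ M \ Z := by rw [this]; exact hZM hz
      exact (mem_sdiff.mp h1).2 hz
    unfold Cl at hnc
    push Not at hnc
    obtain ⟨y, hy, C, hC, hCW, hyC, hCM, hcol, _⟩ := hnc
    rw [mem_sdiff] at hy
    refine ⟨_, C, y, ?_, rfl⟩
    rw [hCand]
    refine ⟨hC, hCW, hy.1, hy.2, hyC, ?_, hcol, ?_⟩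
    · intro v hv hvM
      by_cases hvZ : v ∈ Z
      · exact Or.inr hvZ
      · exact Or.inl (hCM v hv (mem_sdiff.mpr ⟨hvM, hvZ⟩))
    · by_contra hno
      push Not at hno
      exact h.cl y hy.1 C hC hCW hyC (fun v hv hvM => hCM v hv (mem_sdiff.mpr ⟨hvM, hno v hv⟩)) hcol
  obtain ⟨C0, y0, hC0, hn0⟩ := Nat.find_spec hex
  have hmin0 : ∀ C y, Cand C y → Nat.find hex ≤ (C ∩ Z).card := fun C y hC => Nat.find_min' hex ⟨C, y, hC, rfl⟩
  generalize Nat.find hex = n0 at hn0 hmin0
  -- shortest path inside a candidate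
  have hex2 : ∃ m, ∃ C y, ∃ b : ℕ → V, Cand C y ∧ (C ∩ Z).card = n0 ∧ b 0 ∈ C ∧ b 0 ∈ Z ∧ b m ∈ C ∧
      b m ∈ Z ∧ b 0 ≠ b m ∧ ∀ i, i < m → Gd R W f M (b i) (b (i + 1)) := by
    have hC0' := hC0
    rw [hCand] at hC0'
    obtain ⟨a1, a2, a3, a4, a5, a6, a7, z, hzC, hzZ⟩ := hC0'
    have : ∃ z' ∈ C0, z' ∈ Z ∧ z ≠ z' := by
      by_contra hno
      push Not at hno
      refine a4 (hZp z hzZ y0 ⟨C0, a3, hZM hzZ, ?_, a1, a2, a5, hzC, ?_, a7⟩)
      · rintro rfl; exact a4 hzZ
      · intro v hv hvM
        rcases a6 v hv hvM with h1 | h1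
        · exact Or.inl h1
        · exact Or.inr (hno v hv h1).symm
    obtain ⟨z', hz'C, hz'Z, hne⟩ := this
    obtain ⟨m, b, b0, bm, hb⟩ := path_fn (hanc z' hz'Z z hzZ)
    exact ⟨m, C0, y0, b, hC0, hn0, b0 ▸ hzC, b0 ▸ hzZ, bm ▸ hz'C, bm ▸ hz'Z, by rw [b0, bm]; exact hne, hb⟩
  obtain ⟨C, y, b, hC, hcard, hb0C, hb0Z, hbmC, hbmZ, hbne, hb⟩ := Nat.find_spec hex2
  have hmin2 : ∀ (m' : ℕ) (C : Finset V) (y : V) (b : ℕ → V), m' < Nat.find hex2 → Cand C y → (C ∩ Z).card = n0 → b 0 ∈ C → b 0 ∈ Z →
      b m' ∈ C → b m' ∈ Z → b 0 ≠ b m' → (∀ i, i < m' → Gd R W f M (b i) (b (i + 1))) → False :=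
    fun m' C y b hlt g1 g2 g3 g4 g5 g6 g7 g8 => Nat.find_min hex2 hlt ⟨C, y, b, g1, g2, g3, g4, g5, g6, g7, g8⟩
  generalize Nat.find hex2 = m at hbmC hbmZ hbne hb hmin2
  have hC' := hC
  rw [hCand] at hC'
  obtain ⟨hCdc, hCW, hyM, hyZ, hyC, hCM, hCcol, _⟩ := hC'
  -- the path stays in `Z`
  have hbZ : ∀ k, k ≤ m → b (m - k) ∈ Z := by
    intro k
    induction k with
    | zero => intro _; simpa using hbmZ
    | succ k ih =>
      intro hk
      have h1 := hb (m - (k + 1)) (by omega)
      have e : m - (k + 1) + 1 = m - k := by omega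
      rw [e] at h1
      exact hZp _ (ih (by omega)) _ h1
  have hbZ' : ∀ i, i ≤ m → b i ∈ Z := by
    intro i hi
    have := hbZ (m - i) (by omega)
    rwa [show m - (m - i) = i by omega] at this
  have hbM : ∀ i, i ≤ m → b i ∈ M := fun i hi => hZM (hbZ' i hi)
  have hby : ∀ i, i ≤ m → b i ≠ y := by rintro i hi h1; exact hyZ (h1 ▸ hbZ' i hi)
  have hbx : ∀ i, i ≤ m → b i ≠ x := by rintro i hi h1; exact hxZ (h1 ▸ hbZ' i hi)
  -- colours
  have hstep : ∀ i, i < m → f (b (i + 1)) = !f (b i) := by
    intro i hi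
    obtain ⟨D, hD⟩ := hb i hi
    exact hD.col
  have hpar : ∀ i, i ≤ m → f (b i) = if i % 2 = 0 then f (b 0) else !f (b 0) := by
    intro i
    induction i with
    | zero => intro _; simp
    | succ i ih =>
      intro hi
      rw [hstep i (by omega), ih (by omega)]
      rcases Nat.mod_two_eq_zero_or_one i with h1 | h1
      · have h2 : (i + 1) % 2 ≠ 0 := by omega
        simp [h1, h2]
      · have h2 : (i + 1) % 2 = 0 := by omega
        have h3 : i % 2 ≠ 0 := by omega
        simp [h2, h3]
  have hpe : ∀ i j, i ≤ m → j ≤ m → i % 2 = j % 2 → f (b i) = f (b j) := by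
    intro i j hi hj hij
    rw [hpar i hi, hpar j hj, hij]
  have hpo : ∀ i j, i ≤ m → j ≤ m → i % 2 ≠ j % 2 → f (b i) = !f (b j) := by
    intro i j hi hj hij
    rw [hpar i hi, hpar j hj]
    rcases Nat.mod_two_eq_zero_or_one i with h1 | h1
    · have h2 : j % 2 ≠ 0 := by omega
      simp [h1, h2]
    · have h2 : j % 2 = 0 := by omega
      have h3 : i % 2 ≠ 0 := by omega
      simp [h2, h3]
  have hb0y : f (b 0) = !f y := hCcol _ hb0C (hby 0 (by omega))
  have hbmy : f (b m) = !f y := hCcol _ hbmC (hby m (le_refl _))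
  have hm2 : m % 2 = 0 := by
    by_contra hmo
    have := hpo m 0 (le_refl _) (by omega) (by omega)
    rw [hb0y, hbmy] at this
    exact bool_ne this.symm
  have hm0 : 0 < m := by
    rcases Nat.eq_zero_or_pos m with h1 | h1
    · subst h1; exact absurd rfl hbne
    · exact h1
  -- the vertices of the path are different
  have hinj : ∀ i j, i < j → j ≤ m → b i ≠ b j := by
    intro i j hij hjm he
    rcases Nat.eq_zero_or_pos i with h1 | h1
    · subst h1
      have hjm' : j ≠ m := by rintro rfl; exact hbne he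
      refine hmin2 (m - j) C y (fun k => b (k + j)) (by omega) hC hcard ?_ ?_ ?_ ?_ ?_ ?_
      · simpa [← he] using hb0C
      · simpa [← he] using hb0Z
      · simpa [show m - j + j = m by omega] using hbmC
      · simpa [show m - j + j = m by omega] using hbmZ
      · simpa [show m - j + j = m by omega, ← he] using hbne
      · intro k hk
        have := hb (k + j) (by omega)
        rwa [show k + j + 1 = k + 1 + j by omega] at this
    · have ha : Gd R W f M (b (i - 1)) (b j) := by
        have := hb (i - 1) (by omega)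
        rwa [show i - 1 + 1 = i by omega, he] at this
      obtain ⟨q, q0, qm, hq⟩ := shortcut hb (show i - 1 < j by omega) hjm ha
      exact hmin2 _ C y q (by omega) hC hcard (q0 ▸ hb0C) (q0 ▸ hb0Z) (qm ▸ hbmC) (qm ▸ hbmZ)
        (by rw [q0, qm]; exact hbne) hq
  have hinj' : ∀ i j, i ≤ m → j ≤ m → b i = b j → i = j := by
    intro i j hi hj he
    rcases lt_trichotomy i j with h1 | h1 | h1
    · exact absurd he (hinj i j h1 hj)
    · exact h1
    · exact absurd he.symm (hinj j i h1 hi)
  have hbC : ∀ i, 0 < i → i < m → b i ∉ C := by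
    intro i hi him hiC
    exact hmin2 i C y b him hC hcard hb0C hb0Z hiC (hbZ' i him.le) (hinj 0 i hi him.le)
      (fun k hk => hb k (by omega))
  -- the dicycles of the path
  have hD' : ∀ i, ∃ D, i < m → GA R W f M (b i) (b (i + 1)) D := by
    intro i
    by_cases hi : i < m
    · obtain ⟨D, hD⟩ := hb i hi
      exact ⟨D, fun _ => hD⟩
    · exact ⟨∅, fun h1 => absurd h1 hi⟩
  choose D hD using hD'
  obtain ⟨F, hF0, hFs⟩ : ∃ F : ℕ → Finset V, F 0 = C ∧ ∀ i, F (i + 1) = D i :=
    ⟨fun i => Nat.rec C (fun k _ => D k) i, rfl, fun _ => rfl⟩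
  have hDM : ∀ i, i < m → ∀ v ∈ D i, v ∈ M → v = b i ∨ v = b (i + 1) := fun i hi => (hD i hi).2.2.2.2.2.2.2.1
  have hDc : ∀ i, i < m → ∀ v ∈ D i, v ≠ b i → f v = !f (b i) := fun i hi => (hD i hi).2.2.2.2.2.2.2.2
  have hyD : ∀ i, i < m → y ∉ D i := by
    intro i hi hyD
    rcases hDM i hi y hyD hyM with h1 | h1
    · exact hby i hi.le h1.symm
    · exact hby (i + 1) hi h1.symm
  refine chain_lemma hirr hN F b hm2 hm0 ?_ ?_ ?_ ?_ ?_ ?_ ?_
  · intro i hi
    cases i with
    | zero => rw [hF0]; exact hCdc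
    | succ k => rw [hFs]; exact (hD k (by omega)).2.2.2.1
  · intro i hi
    rw [hFs]
    refine ⟨?_, (hD i hi).2.2.2.2.2.1⟩
    cases i with
    | zero => rw [hF0]; exact hb0C
    | succ k => rw [hFs]; exact (hD k (by omega)).2.2.2.2.2.2.1
  · intro i hi v hv hv'
    rw [hFs] at hv'
    by_contra hne
    have hc' := hDc i hi v hv' hne
    cases i with
    | zero =>
      rw [hF0] at hv
      rw [hb0y, Bool.not_not] at hc'
      have hvy : v ≠ y := by rintro rfl; exact hyD 0 hi hv'
      have := hCcol v hv hvy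
      rw [hc'] at this
      exact bool_ne this.symm
    | succ k =>
      rw [hFs] at hv
      by_cases hvk : v = b k
      · subst hvk
        rcases hDM (k + 1) hi _ hv' (hbM k (by omega)) with h1 | h1
        · have := hinj' _ _ (by omega) (by omega) h1; omega
        · have := hinj' _ _ (by omega) (by omega) h1; omega
      · have h1 := hDc k (by omega) v hv hvk
        rw [h1, hstep k (by omega), Bool.not_not] at hc'
        exact bool_ne hc'
  · intro i j hij hj
    exact hinj i j hij hj.le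
  · intro i j hij hj hodd h3 v hv hv'
    obtain ⟨l, rfl⟩ : ∃ l, j = l + 1 := ⟨j - 1, by omega⟩
    rw [hFs] at hv'
    cases i with
    | zero =>
      rw [hF0] at hv
      by_cases hvl : v = b l
      · subst hvl
        exact hbC l (by omega) (by omega) hv
      · have h1 := hDc l (by omega) v hv' hvl
        rw [hpe l 0 (by omega) (by omega) (by omega), hb0y, Bool.not_not] at h1
        have hvy : v ≠ y := by rintro rfl; exact hyD l (by omega) hv'
        have := hCcol v hv hvy
        rw [h1] at this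
        exact bool_ne this.symm
    | succ k =>
      rw [hFs] at hv
      by_cases hvl : v = b l
      · subst hvl
        rcases hDM k (by omega) _ hv (hbM l (by omega)) with h1 | h1
        · have := hinj' _ _ (by omega) (by omega) h1; omega
        · have := hinj' _ _ (by omega) (by omega) h1; omega
      · by_cases hvk : v = b k
        · subst hvk
          rcases hDM l (by omega) _ hv' (hbM k (by omega)) with h1 | h1
          · have := hinj' _ _ (by omega) (by omega) h1; omega
          · have := hinj' _ _ (by omega) (by omega) h1; omega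
        · have h1 := hDc l (by omega) v hv' hvl
          have h2 := hDc k (by omega) v hv hvk
          rw [hpo l k (by omega) (by omega) (by omega), h2, Bool.not_not] at h1
          exact bool_ne h1
  · obtain ⟨k, rfl⟩ : ∃ k, m = k + 1 := ⟨m - 1, by omega⟩
    refine ⟨b (k + 1), ?_, ?_⟩
    · rw [hF0]; exact hbmC
    · rw [hFs]; exact (hD k (by omega)).2.2.2.2.2.2.1
  · intro i j hij hj hev Q hQ hQs
    obtain ⟨l, rfl⟩ : ∃ l, j = l + 1 := ⟨j - 1, by omega⟩
    rw [hFs, Nat.add_sub_cancel] at hQs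
    cases i with
    | zero =>
      rw [hF0] at hQs
      have hl1 : f (b l) = f y := by
        rw [hpo l 0 (by omega) (by omega) (by omega), hb0y, Bool.not_not]
      have hQc : ∀ v ∈ Q, v ≠ y → f v = !f y := by
        intro v hv hvy
        rcases mem_union.mp (hQs hv) with h1 | h1
        · exact hCcol v (mem_erase.mp h1).2 hvy
        · rw [mem_erase] at h1
          rw [hDc l (by omega) v h1.2 h1.1, hl1]
      have hQM : ∀ v ∈ Q, v ∈ M → v = y ∨ v ∈ Z := by
        intro v hv hvM
        rcases mem_union.mp (hQs hv) with h1 | h1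
        · exact hCM v (mem_erase.mp h1).2 hvM
        · rw [mem_erase] at h1
          rcases hDM l (by omega) v h1.2 hvM with h2 | h2
          · exact absurd h2 h1.1
          · right; rw [h2]; exact hbZ' (l + 1) hj
      have hQW : Q ⊆ W := by
        intro v hv
        rcases mem_union.mp (hQs hv) with h1 | h1
        · exact hCW (mem_erase.mp h1).2
        · exact (hD l (by omega)).2.2.2.2.1 (mem_erase.mp h1).2
      have hyQ : y ∈ Q := by
        by_contra hyQ
        refine h.h0 Q hQ hQW ?_ (!f y) (fun v hv => hQc v hv (by rintro rfl; exact hyQ hv))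
        intro hx
        rcases hQM x hx h.xM with h1 | h1
        · exact hyQ (h1 ▸ hx)
        · exact hxZ h1
      have hQZ : ∃ z ∈ Q, z ∈ Z := by
        by_contra hno
        push Not at hno
        refine h.cl y hyM Q hQ hQW hyQ ?_ hQc
        intro v hv hvM
        rcases hQM v hv hvM with h1 | h1
        · exact h1
        · exact absurd h1 (hno v hv)
      have hcQ : Cand Q y := by
        rw [hCand]
        exact ⟨hQ, hQW, hyM, hyZ, hyQ, hQM, hQc, hQZ⟩
      have hge := hmin0 Q y hcQ
      have hb0CZ : b 0 ∈ C ∩ Z := mem_inter.mpr ⟨hb0C, hb0Z⟩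
      have hbl0 : b (l + 1) ≠ b 0 := fun h1 => by
        have := hinj' _ _ hj (by omega) h1; omega
      have hsub : Q ∩ Z ⊆ insert (b (l + 1)) ((C ∩ Z).erase (b 0)) := by
        intro v hv
        rw [mem_inter] at hv
        rw [mem_insert, mem_erase, mem_inter]
        rcases mem_union.mp (hQs hv.1) with h1 | h1
        · rw [mem_erase] at h1
          exact Or.inr ⟨h1.1, h1.2, hv.2⟩
        · rw [mem_erase] at h1
          rcases hDM l (by omega) v h1.2 (hZM hv.2) with h2 | h2
          · exact absurd h2 h1.1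
          · exact Or.inl h2
      have hce : ((C ∩ Z).erase (b 0)).card + 1 = n0 := by
        rw [card_erase_of_mem hb0CZ, hcard]
        have := card_pos.mpr ⟨_, hb0CZ⟩
        omega
      have hblC : b (l + 1) ∉ C := by
        intro hbC'
        have h1 : Q ∩ Z ⊆ (C ∩ Z).erase (b 0) := by
          refine hsub.trans (insert_subset ?_ (Subset.refl _))
          rw [mem_erase, mem_inter]
          exact ⟨hbl0, hbC', hbZ' _ hj⟩
        have := card_le_card h1
        omega
      have hlm : l + 1 ≠ m := by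
        intro h1
        rw [h1] at hblC
        exact hblC hbmC
      have heq : Q ∩ Z = insert (b (l + 1)) ((C ∩ Z).erase (b 0)) := by
        apply eq_of_subset_of_card_le hsub
        have h1 := card_insert_le (b (l + 1)) ((C ∩ Z).erase (b 0))
        omega
      have h1 : b (l + 1) ∈ Q ∩ Z := by rw [heq]; exact mem_insert_self _ _
      have h2 : b m ∈ Q ∩ Z := by
        rw [heq, mem_insert, mem_erase, mem_inter]
        exact Or.inr ⟨hbne.symm, hbmC, hbmZ⟩
      rw [mem_inter] at h1 h2
      refine hmin2 (m - (l + 1)) Q y (fun k => b (k + (l + 1))) (by omega) hcQ ?_ ?_ ?_ ?_ ?_ ?_ ?_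
      · apply le_antisymm _ hge
        have h3 := card_insert_le (b (l + 1)) ((C ∩ Z).erase (b 0))
        rw [heq]
        omega
      · simpa using h1.1
      · simpa using h1.2
      · simpa [show m - (l + 1) + (l + 1) = m by omega] using h2.1
      · simpa [show m - (l + 1) + (l + 1) = m by omega] using h2.2
      · simp only [Nat.zero_add, show m - (l + 1) + (l + 1) = m by omega]
        intro he
        exact hblC (he ▸ hbmC)
      · intro k hk
        have := hb (k + (l + 1)) (by omega)
        rwa [show k + (l + 1) + 1 = k + 1 + (l + 1) by omega] at this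
    | succ k =>
      rw [hFs] at hQs
      have hkl : f (b l) = f (b k) := hpe l k (by omega) (by omega) (by omega)
      have hGA : GA R W f M (b k) (b (l + 1)) Q := by
        refine h.arc (hbM k (by omega)) (hbM (l + 1) hj) (hbx (l + 1) hj) hQ ?_ ?_ ?_ ?_
        · intro v hv
          rcases mem_union.mp (hQs hv) with h1 | h1
          · exact (hD k (by omega)).2.2.2.2.1 (mem_erase.mp h1).2
          · exact (hD l (by omega)).2.2.2.2.1 (mem_erase.mp h1).2
        · intro v hv hvM
          rcases mem_union.mp (hQs hv) with h1 | h1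
          · rw [mem_erase] at h1
            rcases hDM k (by omega) v h1.2 hvM with h2 | h2
            · exact Or.inl h2
            · exact absurd h2 h1.1
          · rw [mem_erase] at h1
            rcases hDM l (by omega) v h1.2 hvM with h2 | h2
            · exact absurd h2 h1.1
            · exact Or.inr h2
        · intro v hv hvk
          rcases mem_union.mp (hQs hv) with h1 | h1
          · rw [mem_erase] at h1
            exact hDc k (by omega) v h1.2 hvk
          · rw [mem_erase] at h1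
            rw [hDc l (by omega) v h1.2 h1.1, hkl]
        · rw [hstep l (by omega), hkl]
      obtain ⟨q, q0, qm, hq⟩ := shortcut hb (show k < l + 1 by omega) hj ⟨Q, hGA⟩
      exact hmin2 _ C y q (by omega) hC hcard (q0 ▸ hb0C) (q0 ▸ hb0Z) (qm ▸ hbmC) (qm ▸ hbmZ)
        (by rw [q0, qm]; exact hbne) hq

end Pool.Agent.Lib.PR
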