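import Mathlib
import Pool.Agent.Lib.PR.Odd2

set_option autoImplicit false

/-! END of the proof of THEOREM ODD: flipping the colours on a minimal closed set gives a proper colouring. -/

namespace Pool.Agent.Lib.PR

open Finset Pool.Agent.Lib.NK
open scoped Classical

variable {V : Type*} {R : V → V → Prop} {W M : Finset V} {f : V → Bool} {x : V}

/-- good walks of length `n` from `x` -/
inductive GR (R : V → V → Prop) (W : Finset V) (f : V → Bool) (M : Finset V) (x : V) : ℕ → V → Prop
  | zero : GR R W f M x 0 x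
  | succ {n : ℕ} {y z : V} : GR R W f M x n y → Gd R W f M y z → GR R W f M x (n + 1) z

noncomputable def dep (R : V → V → Prop) (W : Finset V) (f : V → Bool) (M : Finset V) (x z : V) : ℕ :=
  if h : ∃ n, GR R W f M x n z then Nat.find h else 0

theorem dep_spec {z : V} (h : ∃ n, GR R W f M x n z) : GR R W f M x (dep R W f M x z) z := by
  unfold dep; rw [dif_pos h]; exact Nat.find_spec h

theorem dep_le {z : V} {n : ℕ} (h : GR R W f M x n z) : dep R W f M x z ≤ n := by
  unfold dep; rw [dif_pos ⟨n, h⟩]; exact Nat.find_min' _ h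

theorem dep_root : dep R W f M x x = 0 := Nat.le_zero.mp (dep_le GR.zero)

theorem GR.ex {z : V} (h : Relation.ReflTransGen (Gd R W f M) x z) : ∃ n, GR R W f M x n z := by
  induction h with
  | refl => exact ⟨0, GR.zero⟩
  | tail _ hcd ih =>
    obtain ⟨n, hn⟩ := ih
    exact ⟨n + 1, GR.succ hn hcd⟩

/-- the depth function -/
theorem Mn.depth (hirr : ∀ v, ¬ R v v) (hN : ¬ NRo R) (h : Mn R W f x M) :
    ∃ d : V → ℕ, d x = 0 ∧ (∀ z ∈ M, d z = 0 → z = x) ∧
      (∀ y z, Gd R W f M y z → d z ≤ d y + 1) ∧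
      (∀ z ∈ M, z ≠ x → ∃ y, Gd R W f M y z ∧ d y + 1 = d z) := by
  have hr : ∀ z ∈ M, ∃ n, GR R W f M x n z := fun z hz => GR.ex (h.reach hirr hN z hz)
  have hle : ∀ y z, Gd R W f M y z → dep R W f M x z ≤ dep R W f M x y + 1 := by
    intro y z hyz
    have hy : y ∈ M := by obtain ⟨C, hC⟩ := hyz; exact hC.1
    exact dep_le (GR.succ (dep_spec (hr y hy)) hyz)
  refine ⟨dep R W f M x, dep_root, ?_, hle, ?_⟩
  · intro z hz h0
    have h1 := dep_spec (hr z hz)
    rw [h0] at h1
    cases h1
    rfl
  · intro z hz hzx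
    have h1 := dep_spec (hr z hz)
    generalize hn : dep R W f M x z = n at h1
    cases h1 with
    | zero => exact absurd rfl hzx
    | @succ n y _ h2 h3 =>
      refine ⟨y, h3, ?_⟩
      have h4 := dep_le h2
      have h5 := hle y z h3
      omega

/-- END: the flipped colouring is proper -/
theorem Mn.flip (hirr : ∀ v, ¬ R v v) (hN : ¬ NRo R) (h : Mn R W f x M) (κ : Bool) :
    Ac R (W.filter (fun v => (if v ∈ M then !f v else f v) = κ)) := by
  obtain ⟨g, hg⟩ : ∃ g : V → Bool, g = fun v => if v ∈ M then !f v else f v := ⟨_, rfl⟩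
  have hgM : ∀ v ∈ M, g v = !f v := by intro v hv; rw [hg]; simp [hv]
  have hgN : ∀ v, v ∉ M → g v = f v := by intro v hv; rw [hg]; simp [hv]
  by_contra hAc
  obtain ⟨E0, hE0, hE0s⟩ := dc_of_not_ac hirr hAc
  obtain ⟨d, hdx, hd0, hdle, hdp⟩ := h.depth hirr hN
  -- a monochromatic dicycle of minimum weight
  obtain ⟨E, hE, hEmin⟩ := exists_min_image (W.powerset.filter (fun E => DC R E ∧ ∃ γ, ∀ v ∈ E, g v = γ))
    (fun E => ∑ v ∈ E ∩ M, (d v + 1)) ⟨E0, by
      simp only [mem_filter, mem_powerset]
      refine ⟨hE0s.trans (filter_subset _ _), hE0, κ, ?_⟩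
      intro v hv
      rw [hg]
      exact (mem_filter.mp (hE0s hv)).2⟩
  simp only [mem_filter, mem_powerset] at hE hEmin
  obtain ⟨hEW, hEdc, γ, hγ⟩ := hE
  have hlight : ∀ Q, DC R Q → Q ⊆ W → (∃ γ, ∀ v ∈ Q, g v = γ) →
      ∑ v ∈ Q ∩ M, (d v + 1) < ∑ v ∈ E ∩ M, (d v + 1) → False := by
    intro Q h1 h2 h3 h4
    have := hEmin Q ⟨h2, h1, h3⟩
    omega
  have hEM : ∀ v ∈ E, v ∈ M → f v = !γ := by
    intro v hv hvM
    have := hγ v hv
    rw [hgM v hvM] at this
    rw [← this, Bool.not_not]
  have hEN : ∀ v ∈ E, v ∉ M → f v = γ := by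
    intro v hv hvM
    have := hγ v hv
    rwa [hgN v hvM] at this
  have hEw : ∃ w ∈ E, w ∈ M := by
    by_contra hno
    push Not at hno
    exact h.h0 E hEdc hEW (fun hx => hno x hx h.xM) γ (fun v hv => hEN v hv (hno v hv))
  have hEw2 : ∃ w w', w ∈ E ∧ w ∈ M ∧ w' ∈ E ∧ w' ∈ M ∧ w ≠ w' := by
    obtain ⟨w, hw, hwM⟩ := hEw
    by_contra hno
    push Not at hno
    refine h.cl w hwM E hEdc hEW hw (fun v hv hvM => (hno w v hw hwM hv hvM).symm) ?_
    intro v hv hvw
    have hvM : v ∉ M := fun hvM => hvw (hno w v hw hwM hv hvM).symm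
    rw [hEN v hv hvM, hEM w hw hwM, Bool.not_not]
  -- parents and their dicycles
  have hpc : ∀ z, ∃ y D, z ∈ M → z ≠ x → GA R W f M y z D ∧ d y + 1 = d z := by
    intro z
    by_cases hz : z ∈ M ∧ z ≠ x
    · obtain ⟨y, ⟨D, hD⟩, hy⟩ := hdp z hz.1 hz.2
      exact ⟨y, D, fun _ _ => ⟨hD, hy⟩⟩
    · exact ⟨z, ∅, fun h1 h2 => absurd ⟨h1, h2⟩ hz⟩
  choose p Cy hp using hpc
  have hgC : ∀ z, z ∈ M → z ≠ x → ∀ v ∈ Cy z, v ≠ z → g v = f z := by
    intro z hz hzx v hv hvz
    obtain ⟨hGA, _⟩ := hp z hz hzx
    obtain ⟨a1, a2, a3, a4, a5, a6, a7, a8, a9⟩ := hGA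
    have hfz : f z = !f (p z) := a9 z a7 a3.symm
    by_cases hvM : v ∈ M
    · rcases a8 v hv hvM with h1 | h1
      · rw [hgM v hvM, h1, hfz]
      · exact absurd h1 hvz
    · rw [hgN v hvM, hfz]
      refine a9 v hv ?_
      rintro rfl
      exact hvM a1
  -- NQ1
  have NQ1 : ∀ z z', z ∈ M → z ≠ x → z' ∈ M → z' ≠ x → f z = f z' → d z' < d z → ∀ Q, DC R Q →
      Q ⊆ (Cy z).erase (p z) ∪ (Cy z').erase z' → False := by
    intro z z' hz hzx hz' hzx' hf hlt Q hQ hQs
    obtain ⟨⟨a1, a2, a3, a4, a5, a6, a7, a8, a9⟩, a10⟩ := hp z hz hzx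
    obtain ⟨⟨b1, b2, b3, b4, b5, b6, b7, b8, b9⟩, b10⟩ := hp z' hz' hzx'
    have hfz : f z = !f (p z) := a9 z a7 a3.symm
    have hfz' : f z' = !f (p z') := b9 z' b7 b3.symm
    have hpp : f (p z) = f (p z') := by
      rw [hfz, hfz'] at hf
      exact Bool.not_inj hf
    have hGA : GA R W f M (p z') z Q := by
      refine h.arc b1 hz hzx hQ ?_ ?_ ?_ ?_
      · intro v hv
        rcases mem_union.mp (hQs hv) with h1 | h1
        · exact a5 (mem_erase.mp h1).2
        · exact b5 (mem_erase.mp h1).2
      · intro v hv hvM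
        rcases mem_union.mp (hQs hv) with h1 | h1
        · rw [mem_erase] at h1
          rcases a8 v h1.2 hvM with h2 | h2
          · exact absurd h2 h1.1
          · exact Or.inr h2
        · rw [mem_erase] at h1
          rcases b8 v h1.2 hvM with h2 | h2
          · exact Or.inl h2
          · exact absurd h2 h1.1
      · intro v hv hvp
        rcases mem_union.mp (hQs hv) with h1 | h1
        · rw [mem_erase] at h1
          rw [a9 v h1.2 h1.1, hpp]
        · rw [mem_erase] at h1
          exact b9 v h1.2 hvp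
      · rw [hf, hfz']
    have := hdle _ _ ⟨Q, hGA⟩
    omega
  -- NQ2
  have NQ2 : ∀ z z', z ∈ M → z ≠ x → z' ∈ M → z' ≠ x → f z = f z' →
      d z + d z' < ∑ v ∈ E ∩ M, (d v + 1) → ∀ Q, DC R Q →
      Q ⊆ (Cy z).erase z ∪ (Cy z').erase z' → False := by
    intro z z' hz hzx hz' hzx' hf hlt Q hQ hQs
    obtain ⟨⟨a1, a2, a3, a4, a5, a6, a7, a8, a9⟩, a10⟩ := hp z hz hzx
    obtain ⟨⟨b1, b2, b3, b4, b5, b6, b7, b8, b9⟩, b10⟩ := hp z' hz' hzx'
    refine hlight Q hQ ?_ ⟨f z, ?_⟩ (lt_of_le_of_lt ?_ hlt)
    · intro v hv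
      rcases mem_union.mp (hQs hv) with h1 | h1
      · exact a5 (mem_erase.mp h1).2
      · exact b5 (mem_erase.mp h1).2
    · intro v hv
      rcases mem_union.mp (hQs hv) with h1 | h1
      · rw [mem_erase] at h1
        exact hgC z hz hzx v h1.2 h1.1
      · rw [mem_erase] at h1
        rw [hf]
        exact hgC z' hz' hzx' v h1.2 h1.1
    · have hsub : Q ∩ M ⊆ {p z, p z'} := by
        intro v hv
        rw [mem_inter] at hv
        rw [mem_insert, mem_singleton]
        rcases mem_union.mp (hQs hv.1) with h1 | h1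
        · rw [mem_erase] at h1
          rcases a8 v h1.2 hv.2 with h2 | h2
          · exact Or.inl h2
          · exact absurd h2 h1.1
        · rw [mem_erase] at h1
          rcases b8 v h1.2 hv.2 with h2 | h2
          · exact Or.inr h2
          · exact absurd h2 h1.1
      have h1 := sum_le_sum_of_subset (f := fun v => d v + 1) hsub
      by_cases hpp : p z = p z'
      · rw [hpp] at h1
        simp only [pair_eq_singleton, sum_singleton] at h1
        omega
      · rw [sum_pair hpp] at h1
        omega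
  -- NQ3
  have NQ3 : ∀ z w, z ∈ M → z ≠ x → f z = γ → w ∈ E → w ∈ M → d z ≤ d w → ∀ Q, DC R Q →
      Q ⊆ E.erase w ∪ (Cy z).erase z → False := by
    intro z w hz hzx hf hw hwM hle Q hQ hQs
    obtain ⟨⟨a1, a2, a3, a4, a5, a6, a7, a8, a9⟩, a10⟩ := hp z hz hzx
    refine hlight Q hQ ?_ ⟨γ, ?_⟩ ?_
    · intro v hv
      rcases mem_union.mp (hQs hv) with h1 | h1
      · exact hEW (mem_erase.mp h1).2
      · exact a5 (mem_erase.mp h1).2
    · intro v hv
      rcases mem_union.mp (hQs hv) with h1 | h1
      · exact hγ v (mem_erase.mp h1).2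
      · rw [mem_erase] at h1
        rw [← hf]
        exact hgC z hz hzx v h1.2 h1.1
    · have hsub : Q ∩ M ⊆ insert (p z) ((E ∩ M).erase w) := by
        intro v hv
        rw [mem_inter] at hv
        rw [mem_insert, mem_erase, mem_inter]
        rcases mem_union.mp (hQs hv.1) with h1 | h1
        · rw [mem_erase] at h1
          exact Or.inr ⟨h1.1, h1.2, hv.2⟩
        · rw [mem_erase] at h1
          rcases a8 v h1.2 hv.2 with h2 | h2
          · exact Or.inl h2
          · exact absurd h2 h1.1
      have h1 := sum_le_sum_of_subset (f := fun v => d v + 1) hsub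
      have h2 := sum_erase_add (E ∩ M) (fun v => d v + 1) (mem_inter.mpr ⟨hw, hwM⟩)
      by_cases hpm : p z ∈ (E ∩ M).erase w
      · rw [insert_eq_of_mem hpm] at h1
        omega
      · rw [sum_insert hpm] at h1
        omega
  -- iterates of the parent map
  have hU : ∀ v ∈ M, ∀ j, j ≤ d v → p^[j] v ∈ M ∧ d (p^[j] v) + j = d v := by
    intro v hv j
    induction j with
    | zero => intro _; exact ⟨hv, rfl⟩
    | succ j ih =>
      intro hj
      obtain ⟨h1, h2⟩ := ih (by omega)
      have hne : p^[j] v ≠ x := by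
        intro he
        rw [he, hdx] at h2
        omega
      obtain ⟨h3, h4⟩ := hp _ h1 hne
      rw [Function.iterate_succ_apply']
      exact ⟨h3.1, by omega⟩
  have hUx : ∀ v ∈ M, ∀ j, j < d v → p^[j] v ≠ x := by
    intro v hv j hj he
    have := (hU v hv j hj.le).2
    rw [he, hdx] at this
    omega
  have hUf : ∀ v ∈ M, ∀ j, j ≤ d v → f (p^[j] v) = if j % 2 = 0 then f v else !f v := by
    intro v hv j
    induction j with
    | zero => intro _; simp
    | succ j ih =>
      intro hj
      have h1 := (hp _ (hU v hv j (by omega)).1 (hUx v hv j (by omega))).1.col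
      rw [ih (by omega)] at h1
      rw [Function.iterate_succ_apply']
      rcases Nat.mod_two_eq_zero_or_one j with h2 | h2
      · have h3 : (j + 1) % 2 ≠ 0 := by omega
        simp only [h2, if_true] at h1
        simp only [h3, if_false]
        rw [h1, Bool.not_not]
      · have h3 : (j + 1) % 2 = 0 := by omega
        have h4 : j % 2 ≠ 0 := by omega
        simp only [h4, if_false] at h1
        simp only [h3, if_true]
        exact (Bool.not_inj h1).symm
  -- the closest pair
  have hex : ∃ n, ∃ w w' i i', w ∈ E ∧ w ∈ M ∧ w' ∈ E ∧ w' ∈ M ∧ w ≠ w' ∧ i ≤ d w ∧ i' ≤ d w' ∧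
      p^[i] w = p^[i'] w' ∧ i + i' = n := by
    obtain ⟨w, w', h1, h2, h3, h4, h5⟩ := hEw2
    refine ⟨_, w, w', d w, d w', h1, h2, h3, h4, h5, le_refl _, le_refl _, ?_, rfl⟩
    have e1 := hU w h2 (d w) (le_refl _)
    have e2 := hU w' h4 (d w') (le_refl _)
    rw [hd0 _ e1.1 (by omega), hd0 _ e2.1 (by omega)]
  obtain ⟨w, w', i, i', hw, hwM, hw', hwM', hww, hi, hi', hmeet, hn⟩ := Nat.find_spec hex
  have hminn : ∀ v v' j j', v ∈ E → v ∈ M → v' ∈ E → v' ∈ M → v ≠ v' → j ≤ d v → j' ≤ d v' →
      p^[j] v = p^[j'] v' → i + i' ≤ j + j' := by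
    intro v v' j j' g1 g2 g3 g4 g5 g6 g7 g8
    rw [hn]
    exact Nat.find_min' hex ⟨v, v', j, j', g1, g2, g3, g4, g5, g6, g7, g8, rfl⟩
  clear hn
  have f1 : ∀ j l, j ≤ i → l ≤ i' → p^[j] w = p^[l] w' → j = i ∧ l = i' := by
    intro j l hj hl he
    have := hminn w w' j l hw hwM hw' hwM' hww (by omega) (by omega) he
    omega
  have f2 : ∀ j, 0 < j → j ≤ i → p^[j] w ∈ E → j = i ∧ i' = 0 := by
    intro j hj hji he
    obtain ⟨h1, h2⟩ := hU w hwM j (by omega)
    have hne : w ≠ p^[j] w := by
      intro h3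
      rw [← h3] at h2
      omega
    have := hminn w (p^[j] w) j 0 hw hwM he h1 hne (by omega) (by omega) rfl
    omega
  have f3 : ∀ l, 0 < l → l ≤ i' → p^[l] w' ∈ E → l = i' ∧ i = 0 := by
    intro l hl hli he
    obtain ⟨h1, h2⟩ := hU w' hwM' l (by omega)
    have hne : w' ≠ p^[l] w' := by
      intro h3
      rw [← h3] at h2
      omega
    have := hminn w' (p^[l] w') l 0 hw' hwM' he h1 hne (by omega) (by omega) rfl
    omega
  have hfw : f w = !γ := hEM w hw hwM
  have hfw' : f w' = !γ := hEM w' hw' hwM'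
  have hm2 : (i + i') % 2 = 0 := by
    have e1 := hUf w hwM i hi
    have e2 := hUf w' hwM' i' hi'
    rw [hmeet, e2, hfw, hfw'] at e1
    by_contra hne
    rcases Nat.mod_two_eq_zero_or_one i with h1 | h1
    · have h2 : i' % 2 ≠ 0 := by omega
      simp only [h1, h2, if_true, if_false] at e1
      exact bool_ne e1
    · have h2 : i' % 2 = 0 := by omega
      have h3 : i % 2 ≠ 0 := by omega
      simp only [h3, h2, if_true, if_false] at e1
      exact bool_ne e1.symm
  have hm0 : 0 < i + i' := by
    by_contra hne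
    have h1 : i = 0 := by omega
    have h2 : i' = 0 := by omega
    subst h1 h2
    exact hww hmeet
  -- the closed tree path
  obtain ⟨s, hs⟩ : ∃ s : ℕ → V, s = fun k => if k ≤ i' then p^[i' - k] w' else p^[k - i' - 1] w := ⟨_, rfl⟩
  have hsl : ∀ k, k ≤ i' → s k = p^[i' - k] w' := by intro k hk; rw [hs]; simp [hk]
  have hsr : ∀ k, i' < k → s k = p^[k - i' - 1] w := by
    intro k hk; rw [hs]; simp [show ¬ k ≤ i' by omega]
  have hsM : ∀ k, k ≤ i + i' + 1 → s k ∈ M := by
    intro k hk
    by_cases h1 : k ≤ i'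
    · rw [hsl k h1]; exact (hU w' hwM' _ (by omega)).1
    · rw [hsr k (by omega)]; exact (hU w hwM _ (by omega)).1
  have hsdl : ∀ k, k ≤ i' → d (s k) + (i' - k) = d w' := by
    intro k hk
    rw [hsl k hk]; exact (hU w' hwM' _ (by omega)).2
  have hsdr : ∀ k, i' < k → k ≤ i + i' + 1 → d (s k) + (k - i' - 1) = d w := by
    intro k hk hk2
    rw [hsr k hk]; exact (hU w hwM _ (by omega)).2
  have S1 : ∀ a b, a < b → b ≤ i + i' + 1 → ¬ (a = 0 ∧ b = i + i' + 1) → s a ≠ s b := by
    intro a b hab hb hne he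
    by_cases h1 : b ≤ i'
    · have e1 := hsdl a (by omega)
      have e2 := hsdl b h1
      rw [he] at e1
      omega
    · by_cases h2 : a ≤ i'
      · rw [hsl a h2, hsr b (by omega)] at he
        have := f1 (b - i' - 1) (i' - a) (by omega) (by omega) he.symm
        omega
      · have e1 := hsdr a (by omega) (by omega)
        have e2 := hsdr b (by omega) hb
        rw [he] at e1
        omega
  have S3 : ∀ k, 1 ≤ k → k ≤ i + i' → s k ∈ E → k = i' ∨ k = i' + 1 := by
    intro k hk hk2 he
    by_cases h1 : k ≤ i'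
    · left
      by_contra hne
      rw [hsl k h1] at he
      have := f3 (i' - k) (by omega) (by omega) he
      omega
    · right
      by_contra hne
      rw [hsr k (by omega)] at he
      have := f2 (k - i' - 1) (by omega) (by omega) he
      omega
  have hends : s 0 = s (i + i' + 1) := by
    rw [hsl 0 (by omega), hsr _ (by omega)]
    rw [show i' - 0 = i' by omega, show i + i' + 1 - i' - 1 = i by omega]
    exact hmeet.symm
  have hsi : s i' = w' := by rw [hsl i' (le_refl _)]; simp
  have hsi1 : s (i' + 1) = w := by rw [hsr _ (by omega)]; simp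
  -- the special vertex of each member
  obtain ⟨e, he⟩ : ∃ e : ℕ → V, e = fun k => if k < i' then s (k + 1) else s k := ⟨_, rfl⟩
  have hel : ∀ k, k < i' → e k = s (k + 1) := by intro k hk; rw [he]; simp [hk]
  have her : ∀ k, i' < k → e k = s k := by intro k hk; rw [he]; simp [show ¬ k < i' by omega]
  have heM : ∀ k, k ≤ i + i' → k ≠ i' → e k ∈ M := by
    intro k hk hne
    rcases lt_or_gt_of_ne hne with h1 | h1
    · rw [hel k h1]; exact hsM _ (by omega)
    · rw [her k h1]; exact hsM _ (by omega)
  have hex' : ∀ k, k ≤ i + i' → k ≠ i' → e k ≠ x := by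
    intro k hk hne
    rcases lt_or_gt_of_ne hne with h1 | h1
    · rw [hel k h1, hsl _ (by omega)]; exact hUx w' hwM' _ (by omega)
    · rw [her k h1, hsr _ h1]; exact hUx w hwM _ (by omega)
  have hpl : ∀ k, k < i' → p (e k) = s k := by
    intro k hk
    rw [hel k hk, hsl _ (by omega), hsl _ (by omega), ← Function.iterate_succ_apply' p]
    congr 2
    omega
  have hpr : ∀ k, i' < k → p (e k) = s (k + 1) := by
    intro k hk
    rw [her k hk, hsr _ (by omega), hsr _ (by omega), ← Function.iterate_succ_apply' p]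
    congr 2
    omega
  have hfe : ∀ k, k ≤ i + i' → k ≠ i' → f (e k) = if (k + i') % 2 = 0 then γ else !γ := by
    intro k hk hne
    rcases lt_or_gt_of_ne hne with h1 | h1
    · rw [hel k h1, hsl _ (by omega), hUf w' hwM' _ (by omega), hfw']
      rcases Nat.mod_two_eq_zero_or_one (k + i') with h2 | h2
      · have h3 : (i' - (k + 1)) % 2 ≠ 0 := by omega
        simp only [h2, h3, if_true, if_false, Bool.not_not]
      · have h3 : (i' - (k + 1)) % 2 = 0 := by omega
        have h4 : (k + i') % 2 ≠ 0 := by omega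
        simp only [h4, h3, if_true, if_false]
    · rw [her k h1, hsr _ h1, hUf w hwM _ (by omega), hfw]
      rcases Nat.mod_two_eq_zero_or_one (k + i') with h2 | h2
      · have h3 : (k - i' - 1) % 2 ≠ 0 := by omega
        simp only [h2, h3, if_true, if_false, Bool.not_not]
      · have h3 : (k - i' - 1) % 2 = 0 := by omega
        have h4 : (k + i') % 2 ≠ 0 := by omega
        simp only [h4, h3, if_true, if_false]
  -- the members of the chain
  obtain ⟨F, hF⟩ : ∃ F : ℕ → Finset V, F = fun k => if k = i' then E else Cy (e k) := ⟨_, rfl⟩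
  have hFE : F i' = E := by rw [hF]; simp
  have hFk : ∀ k, k ≠ i' → F k = Cy (e k) := by intro k hk; rw [hF]; simp [hk]
  have hGk : ∀ k, k ≤ i + i' → k ≠ i' → GA R W f M (p (e k)) (e k) (Cy (e k)) := fun k hk hne =>
    (hp _ (heM k hk hne) (hex' k hk hne)).1
  have hsF : ∀ k, k ≤ i + i' → s k ∈ F k ∧ s (k + 1) ∈ F k := by
    intro k hk
    by_cases hne : k = i'
    · subst hne
      rw [hFE, hsi, hsi1]; exact ⟨hw', hw⟩
    · rw [hFk k hne]
      have hG := hGk k hk hne
      rcases lt_or_gt_of_ne hne with h1 | h1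
      · rw [← hpl k h1, ← hel k h1]
        exact ⟨hG.2.2.2.2.2.1, hG.2.2.2.2.2.2.1⟩
      · rw [← hpr k h1]
        refine ⟨?_, hG.2.2.2.2.2.1⟩
        have := hG.2.2.2.2.2.2.1
        rw [her k h1] at this ⊢
        exact this
  have hFM : ∀ k, k ≤ i + i' → k ≠ i' → ∀ v ∈ F k, v ∈ M → v = s k ∨ v = s (k + 1) := by
    intro k hk hne v hv hvM
    rw [hFk k hne] at hv
    have hG := (hGk k hk hne).2.2.2.2.2.2.2.1 v hv hvM
    rcases lt_or_gt_of_ne hne with h1 | h1
    · rw [hpl k h1, hel k h1] at hG; exact hG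
    · rw [hpr k h1, her k h1] at hG; exact hG.symm
  have hFc : ∀ k, k ≤ i + i' → ∀ v ∈ F k, (k ≠ i' ∧ v = e k) ∨ g v = if (k + i') % 2 = 0 then γ else !γ := by
    intro k hk v hv
    by_cases hne : k = i'
    · right
      subst hne
      rw [hFE] at hv
      rw [hγ v hv]
      simp [show (k + k) % 2 = 0 by omega]
    · by_cases hve : v = e k
      · exact Or.inl ⟨hne, hve⟩
      · right
        rw [hFk k hne] at hv
        rw [hgC _ (heM k hk hne) (hex' k hk hne) v hv hve]
        exact hfe k hk hne
  have hD : ∀ k l, k < l → l ≤ i + i' → (l - k) % 2 = 1 → ∀ v, v ∈ F k → v ∈ F l →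
      l = k + 1 ∧ v = s (k + 1) := by
    intro k l hkl hl hodd v hv hv'
    have hexc : (k ≠ i' ∧ v = e k) ∨ (l ≠ i' ∧ v = e l) := by
      rcases hFc k (by omega) v hv with h1 | h1
      · exact Or.inl h1
      · rcases hFc l hl v hv' with h2 | h2
        · exact Or.inr h2
        · exfalso
          rw [h1] at h2
          rcases Nat.mod_two_eq_zero_or_one (k + i') with h3 | h3
          · have h4 : (l + i') % 2 ≠ 0 := by omega
            simp only [h3, h4, if_true, if_false] at h2
            exact bool_ne h2.symm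
          · have h4 : (l + i') % 2 = 0 := by omega
            have h5 : (k + i') % 2 ≠ 0 := by omega
            simp only [h5, h4, if_true, if_false] at h2
            exact bool_ne h2
    have hvM : v ∈ M := by
      rcases hexc with h1 | h1
      · rw [h1.2]; exact heM k (by omega) h1.1
      · rw [h1.2]; exact heM l hl h1.1
    by_cases hk : k = i'
    · -- the first member is `E`
      have hlne : l ≠ i' := by omega
      rcases hexc with h1 | h1
      · exact absurd hk h1.1
      · have hve := h1.2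
        rw [her l (by omega)] at hve
        rw [hk, hFE] at hv
        rw [hve] at hv
        have := S3 l (by omega) hl hv
        have hl1 : l = k + 1 := by omega
        exact ⟨hl1, by rw [hve, hl1]⟩
    · by_cases hlE : l = i'
      · rcases hexc with h1 | h1
        · have hve := h1.2
          rw [hel k (by omega)] at hve
          rw [hlE, hFE] at hv'
          rw [hve] at hv'
          have := S3 (k + 1) (by omega) (by omega) hv'
          exact ⟨by omega, hve⟩
        · exact absurd hlE h1.1
      · have h1 := hFM k (by omega) hk v hv hvM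
        have h2 := hFM l hl hlE v hv' hvM
        rcases h1 with h1 | h1
        · exfalso
          rcases h2 with h2 | h2
          · exact S1 k l hkl (by omega) (by omega) (h1.symm.trans h2)
          · exact S1 k (l + 1) (by omega) (by omega) (by omega) (h1.symm.trans h2)
        · rcases h2 with h2 | h2
          · by_cases hl1 : l = k + 1
            · exact ⟨hl1, h1⟩
            · exact absurd (h1.symm.trans h2) (S1 (k + 1) l (by omega) (by omega) (by omega))
          · exact absurd (h1.symm.trans h2) (S1 (k + 1) (l + 1) (by omega) (by omega) (by omega))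
  have hφ : d w + 1 + (d w' + 1) ≤ ∑ v ∈ E ∩ M, (d v + 1) := by
    have hsub : ({w, w'} : Finset V) ⊆ E ∩ M := by
      intro v hv
      rw [mem_insert, mem_singleton] at hv
      rcases hv with h1 | h1
      · rw [h1]; exact mem_inter.mpr ⟨hw, hwM⟩
      · rw [h1]; exact mem_inter.mpr ⟨hw', hwM'⟩
    have h1 := sum_le_sum_of_subset (f := fun v => d v + 1) hsub
    rw [sum_pair hww] at h1
    exact h1
  refine chain_lemma hirr hN (m := i + i') F (fun k => s (k + 1)) hm2 hm0 ?_ ?_ ?_ ?_ ?_ ?_ ?_
  · intro k hk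
    by_cases hne : k = i'
    · subst hne; rw [hFE]; exact hEdc
    · rw [hFk k hne]; exact (hGk k hk hne).2.2.2.1
  · intro k hk
    exact ⟨(hsF k hk.le).2, (hsF (k + 1) hk).1⟩
  · intro k hk v hv hv'
    exact (hD k (k + 1) (by omega) hk (by omega) v hv hv').2
  · intro k l hkl hl
    exact S1 (k + 1) (l + 1) (by omega) (by omega) (by omega)
  · intro k l hkl hl hodd h3 v hv hv'
    have := (hD k l hkl hl hodd v hv hv').1
    omega
  · exact ⟨s 0, (hsF 0 (by omega)).1, by rw [hends]; exact (hsF (i + i') (le_refl _)).2⟩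
  · intro k l hkl hl hev Q hQ hQs
    simp only [show l - 1 + 1 = l by omega] at hQs
    have hpar : (k + i') % 2 = (l + i') % 2 := by omega
    rcases lt_trichotomy l i' with hl' | hl' | hl'
    · -- both on the left
      rw [hFk k (by omega), hFk l (by omega), ← hel k (by omega), ← hpl l hl', union_comm] at hQs
      refine NQ1 (e l) (e k) (heM l hl (by omega)) (hex' l hl (by omega)) (heM k (by omega) (by omega))
        (hex' k (by omega) (by omega)) ?_ ?_ Q hQ hQs
      · rw [hfe l hl (by omega), hfe k (by omega) (by omega), hpar]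
      · rw [hel k (by omega), hel l hl']
        have e1 := hsdl (k + 1) (by omega)
        have e2 := hsdl (l + 1) (by omega)
        omega
    · -- the second one is `E`
      have hki : k < i' := by omega
      rw [hFk k (by omega), hl', hFE, hsi, ← hel k hki, union_comm] at hQs
      refine NQ3 (e k) w' (heM k (by omega) (by omega)) (hex' k (by omega) (by omega)) ?_ hw' hwM' ?_ Q hQ hQs
      · rw [hfe k (by omega) (by omega)]
        simp [show (k + i') % 2 = 0 by omega]
      · rw [hel k hki]
        have e1 := hsdl (k + 1) (by omega)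
        omega
    · rcases lt_trichotomy k i' with hk' | hk' | hk'
      · -- two sides
        rw [hFk k (by omega), hFk l (by omega), ← hel k hk', ← her l hl'] at hQs
        refine NQ2 (e k) (e l) (heM k (by omega) (by omega)) (hex' k (by omega) (by omega))
          (heM l hl (by omega)) (hex' l hl (by omega)) ?_ ?_ Q hQ hQs
        · rw [hfe l hl (by omega), hfe k (by omega) (by omega), hpar]
        · rw [hel k hk', her l hl']
          have e1 := hsdl (k + 1) (by omega)
          have e2 := hsdr l hl' (by omega)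
          omega
      · -- the first one is `E`
        rw [hk', hFE, hsi1, hFk l (by omega), ← her l hl'] at hQs
        refine NQ3 (e l) w (heM l hl (by omega)) (hex' l hl (by omega)) ?_ hw hwM ?_ Q hQ hQs
        · rw [hfe l hl (by omega)]
          simp [show (l + i') % 2 = 0 by omega]
        · rw [her l hl']
          have e1 := hsdr l hl' (by omega)
          omega
      · -- both on the right
        rw [hFk k (by omega), hFk l (by omega), ← hpr k hk', ← her l hl'] at hQs
        refine NQ1 (e k) (e l) (heM k (by omega) (by omega)) (hex' k (by omega) (by omega))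
          (heM l hl (by omega)) (hex' l hl (by omega)) ?_ ?_ Q hQ hQs
        · rw [hfe l hl (by omega), hfe k (by omega) (by omega), hpar]
        · rw [her k hk', her l hl']
          have e1 := hsdr k hk' (by omega)
          have e2 := hsdr l hl' (by omega)
          omega

/-- an acyclic set contains no nonempty subset without sinks -/
theorem ac_sinkO {F S : Finset V} (h : Ac R F) (hS : S ⊆ F) (hne : S.Nonempty)
    (hs : ∀ u ∈ S, ∃ v ∈ S, R u v) : False := by
  obtain ⟨u, hu, hmin⟩ := exists_min_image S (fun u => (S.filter (fun x => Rc R S u x)).card) hne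
  obtain ⟨v, hv, huv⟩ := hs u hu
  have h1 := hmin v hv
  have h2 : S.filter (fun x => Rc R S v x) ⊂ S.filter (fun x => Rc R S u x) := by
    rw [Finset.ssubset_iff_of_subset]
    · refine ⟨u, by simp [hu, Rc.rfl' hu], ?_⟩
      simp only [mem_filter, not_and]
      intro _ h3
      exact h u v huv (hS hu) (h3.mono hS)
    · intro x hx
      rw [mem_filter] at hx ⊢
      exact ⟨hx.1, Rc.head huv hu hx.2⟩
  have := card_lt_card h2
  omega

/-- a minimal closed set exists -/
theorem exists_mn (hirr : ∀ v, ¬ R v v) (hx : x ∈ W)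
    (h0 : ∀ C, DC R C → C ⊆ W → x ∉ C → ∀ κ, ¬ ∀ v ∈ C, f v = κ) : ∃ M, Mn R W f x M := by
  obtain ⟨M, hM, hmin⟩ := exists_min_image (W.powerset.filter (fun M => x ∈ M ∧ Cl R W f M)) card ⟨W, by
    simp only [mem_filter, mem_powerset, Subset.refl, true_and]
    refine ⟨hx, ?_⟩
    intro y _ C hC hCW hy hCM _
    obtain ⟨z, hz, hzy⟩ := hC.two hirr y
    exact hzy (hCM z hz (hCW hz))⟩
  simp only [mem_filter, mem_powerset] at hM hmin
  refine ⟨M, hM.2.1, hM.1, hM.2.2, ?_, h0⟩
  intro M' hM' hx' hcl'
  exact eq_of_subset_of_card_le hM' (hmin M' ⟨hM'.trans hM.1, hx', hcl'⟩)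

/-- without an odd ring with at most one neck every vertex set splits into two acyclic sets -/
theorem two_col_odd (hirr : ∀ v, ¬ R v v) (hN : ¬ NRo R) (K : Finset V) :
    ∃ col : V → Bool, ∀ κ, Ac R (K.filter (fun v => col v = κ)) := by
  induction K using Finset.induction_on with
  | empty =>
    refine ⟨fun _ => true, fun κ => ?_⟩
    intro u v _ hu
    simp at hu
  | insert x K hx ih =>
    obtain ⟨f, hf⟩ := ih
    obtain ⟨M, hM⟩ := exists_mn (R := R) (W := insert x K) (f := f) (x := x) hirr (mem_insert_self _ _) (by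
      intro C hC hCW hxC κ hmono
      obtain ⟨u, hu, _⟩ := hC.two hirr x
      refine ac_sinkO (hf κ) (S := C) ?_ ⟨u, hu⟩ (fun v hv => hC.out hv)
      intro v hv
      rw [mem_filter]
      refine ⟨?_, hmono v hv⟩
      rcases mem_insert.mp (hCW hv) with h1 | h1
      · exact absurd (h1 ▸ hv) hxC
      · exact h1)
    exact ⟨fun v => if v ∈ M then !f v else f v, fun κ => hM.flip hirr hN κ⟩

end Pool.Agent.Lib.PR
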