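import Mathlib
import Pool.Agent.Lib.PR.Neck
import Pool.Agent.Lib.PR.Dc

set_option autoImplicit false

/-! The tree of dicycles: state, invariants and the main claim (a new dicycle meets the tree in one vertex). -/

namespace Pool.Agent.Lib.PR

open Finset Pool.Agent.Lib.NK
open scoped Classical

variable {V : Type*} {R : V → V → Prop}

def par (n : ℕ) : Bool := decide (n % 2 = 1)

theorem par_eq {n m : ℕ} : par n = par m ↔ n % 2 = m % 2 := by
  unfold par
  rw [decide_eq_decide]
  omega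

/-- tree vertices `U`, holes `H`, the dicycle `C s` joins `s` to `hub s` -/
structure St (V : Type*) where
  U : Finset V
  H : Finset V
  hub : V → V
  C : V → Finset V
  col : V → Bool
  lev : V → ℕ

structure Inv (R : V → V → Prop) (K : Finset V) (h0 : V) (σ : St V) : Prop where
  HU : σ.H ⊆ σ.U
  UK : σ.U ⊆ K
  h0U : h0 ∈ σ.U
  hb : ∀ s ∈ σ.U, s ≠ h0 → σ.hub s ∈ σ.U ∧ σ.hub s ∉ σ.H ∧ σ.lev s = σ.lev (σ.hub s) + 1
  dc : ∀ s ∈ σ.U, s ≠ h0 → DC R (σ.C s) ∧ s ∈ σ.C s ∧ σ.hub s ∈ σ.C s ∧ σ.C s ⊆ K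
  cl : ∀ s ∈ σ.U, s ≠ h0 → ∀ v ∈ σ.C s, v ≠ s → v ∉ σ.H ∧ σ.col v = par (σ.lev (σ.hub s))
  ac : ∀ κ, Ac R (K.filter (fun v => v ∉ σ.H ∧ σ.col v = κ))
  dj : ∀ s ∈ σ.U, s ≠ h0 → ∀ s' ∈ σ.U, s' ≠ h0 → s ≠ s' → ∀ x ∈ σ.C s, x ∈ σ.C s' →
    (x = s ∨ x = σ.hub s) ∧ (x = s' ∨ x = σ.hub s')

variable {K : Finset V} {h0 : V} {σ : St V}

/-- adjacency in the tree -/
def Adj (h0 : V) (σ : St V) (d e : V) : Prop :=
  ∃ s ∈ σ.U, s ≠ h0 ∧ ((d = s ∧ e = σ.hub s) ∨ (d = σ.hub s ∧ e = s))

/-- walks of length `n` from `d` to `t` -/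
inductive Wk (h0 : V) (σ : St V) (t : V) : ℕ → V → Prop
  | zero : Wk h0 σ t 0 t
  | succ {n : ℕ} {d e : V} : Adj h0 σ d e → Wk h0 σ t n e → Wk h0 σ t (n + 1) d

theorem Adj.symm {d e : V} (h : Adj h0 σ d e) : Adj h0 σ e d := by
  obtain ⟨s, hs, hs0, h | h⟩ := h
  · exact ⟨s, hs, hs0, Or.inr ⟨h.2, h.1⟩⟩
  · exact ⟨s, hs, hs0, Or.inl ⟨h.2, h.1⟩⟩

theorem Inv.toRoot (inv : Inv R K h0 σ) (t : V) : ∀ n, ∀ s ∈ σ.U, σ.lev s ≤ n →
    ((∃ m, Wk h0 σ t m s) ↔ (∃ m, Wk h0 σ t m h0)) := by
  intro n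
  induction n with
  | zero =>
    intro s hs hn
    by_cases h : s = h0
    · rw [h]
    · have := (inv.hb s hs h).2.2
      omega
  | succ n ih =>
    intro s hs hn
    by_cases h : s = h0
    · rw [h]
    · obtain ⟨h1, h2, h3⟩ := inv.hb s hs h
      rw [← ih (σ.hub s) h1 (by omega)]
      constructor
      · rintro ⟨m, hm⟩
        exact ⟨m + 1, Wk.succ ⟨s, hs, h, Or.inr ⟨rfl, rfl⟩⟩ hm⟩
      · rintro ⟨m, hm⟩
        exact ⟨m + 1, Wk.succ ⟨s, hs, h, Or.inl ⟨rfl, rfl⟩⟩ hm⟩

theorem Inv.ex (inv : Inv R K h0 σ) {t : V} (ht : t ∈ σ.U) {s : V} (hs : s ∈ σ.U) :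
    ∃ m, Wk h0 σ t m s :=
  (inv.toRoot t _ s hs (le_refl _)).mpr ((inv.toRoot t _ t ht (le_refl _)).mp ⟨0, Wk.zero⟩)

theorem Inv.wkPar (inv : Inv R K h0 σ) {t : V} {n : ℕ} {d : V} (h : Wk h0 σ t n d) :
    n % 2 = (σ.lev d + σ.lev t) % 2 := by
  induction h with
  | zero => omega
  | succ ha _ ih =>
    obtain ⟨s, hs, hs0, h | h⟩ := ha
    · have := (inv.hb s hs hs0).2.2
      rw [h.1]; rw [h.2] at ih; omega
    · have := (inv.hb s hs hs0).2.2
      rw [h.1]; rw [h.2] at ih; omega

/-- distance to `t` -/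
noncomputable def dl (h0 : V) (σ : St V) (t d : V) : ℕ :=
  if h : ∃ n, Wk h0 σ t n d then Nat.find h else 0

theorem dl_spec {t d : V} (h : ∃ n, Wk h0 σ t n d) : Wk h0 σ t (dl h0 σ t d) d := by
  unfold dl; rw [dif_pos h]; exact Nat.find_spec h

theorem dl_le {t d : V} {n : ℕ} (h : Wk h0 σ t n d) : dl h0 σ t d ≤ n := by
  unfold dl; rw [dif_pos ⟨n, h⟩]; exact Nat.find_min' _ h

theorem dl_zero {t d : V} (h : ∃ n, Wk h0 σ t n d) (h' : dl h0 σ t d = 0) : d = t := by
  have := dl_spec h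
  rw [h'] at this
  cases this
  rfl

theorem dl_self {t : V} : dl h0 σ t t = 0 := Nat.le_zero.mp (dl_le Wk.zero)

theorem Inv.dlAdj (inv : Inv R K h0 σ) {t : V} (ht : t ∈ σ.U) {d e : V} (h : Adj h0 σ d e) :
    dl h0 σ t d = dl h0 σ t e + 1 ∨ dl h0 σ t e = dl h0 σ t d + 1 := by
  have hd : d ∈ σ.U ∧ e ∈ σ.U := by
    obtain ⟨s, hs, hs0, h | h⟩ := h
    · rw [h.1, h.2]; exact ⟨hs, (inv.hb s hs hs0).1⟩
    · rw [h.1, h.2]; exact ⟨(inv.hb s hs hs0).1, hs⟩
  have w1 := dl_spec (inv.ex ht hd.1)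
  have w2 := dl_spec (inv.ex ht hd.2)
  have i1 := dl_le (Wk.succ h w2)
  have i2 := dl_le (Wk.succ h.symm w1)
  have p1 := inv.wkPar w1
  have p2 := inv.wkPar (Wk.succ h w2)
  omega

theorem Inv.dlEdge (inv : Inv R K h0 σ) {t : V} (ht : t ∈ σ.U) {s : V} (hs : s ∈ σ.U) (hs0 : s ≠ h0) :
    dl h0 σ t s = dl h0 σ t (σ.hub s) + 1 ∨ dl h0 σ t (σ.hub s) = dl h0 σ t s + 1 :=
  inv.dlAdj ht ⟨s, hs, hs0, Or.inl ⟨rfl, rfl⟩⟩

theorem Inv.dlNext (inv : Inv R K h0 σ) {t : V} (ht : t ∈ σ.U) {d : V} (hd : d ∈ σ.U) {n : ℕ}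
    (h : dl h0 σ t d = n + 1) : ∃ e, Adj h0 σ d e ∧ e ∈ σ.U ∧ dl h0 σ t e = n := by
  have w := dl_spec (inv.ex ht hd)
  rw [h] at w
  cases w with
  | @succ _ _ e ha w' =>
    refine ⟨e, ha, ?_, ?_⟩
    · obtain ⟨s, hs, hs0, h | h⟩ := ha
      · rw [h.2]; exact (inv.hb s hs hs0).1
      · rw [h.2]; exact hs
    · have := dl_le w'
      have := inv.dlAdj ht ha
      omega

/-- the chain of dicycles from `d` to `t` -/
theorem Inv.chain (inv : Inv R K h0 σ) {t : V} (ht : t ∈ σ.U) : ∀ n, ∀ d ∈ σ.U, dl h0 σ t d = n →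
    ∃ S, Ch R n d t S ∧ ∀ x ∈ S, (n = 0 ∧ x = t) ∨ ∃ s ∈ σ.U, s ≠ h0 ∧ x ∈ σ.C s ∧
      dl h0 σ t s ≤ n ∧ dl h0 σ t (σ.hub s) ≤ n ∧ (dl h0 σ t s = n → s = d) ∧
      (dl h0 σ t (σ.hub s) = n → σ.hub s = d) := by
  intro n
  induction n with
  | zero =>
    intro d hd hn
    have : d = t := dl_zero (inv.ex ht hd) hn
    subst this
    exact ⟨{d}, Ch.nil d, fun x hx => Or.inl ⟨rfl, by simpa using hx⟩⟩
  | succ n ih =>
    intro d hd hn
    obtain ⟨e, hde, he, hen⟩ := inv.dlNext ht hd hn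
    obtain ⟨S, hS, hSx⟩ := ih e he hen
    obtain ⟨s, hs, hs0, hor⟩ := hde
    obtain ⟨hdc, hsC, hhC, _⟩ := inv.dc s hs hs0
    have hdC : d ∈ σ.C s := by
      rcases hor with h | h
      · rw [h.1]; exact hsC
      · rw [h.1]; exact hhC
    have heC : e ∈ σ.C s := by
      rcases hor with h | h
      · rw [h.2]; exact hhC
      · rw [h.2]; exact hsC
    have hne : d ≠ e := by
      intro h
      rw [h] at hn
      omega
    have hends : ∀ x, (x = s ∨ x = σ.hub s) ↔ (x = d ∨ x = e) := by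
      intro x
      rcases hor with h | h
      · rw [h.1, h.2]
      · rw [h.1, h.2]; exact or_comm
    have hlink : Link R (σ.C s) d e := hdc.circ d hdC e heC hne
    have hmeet : ∀ x ∈ σ.C s, x ∈ S → x = e := by
      intro x hx hxS
      rcases hSx x hxS with ⟨h1, h2⟩ | ⟨s', hs', hs0', hx', h3, h4, h5, h6⟩
      · rw [h2]
        rw [h1] at hen
        exact (dl_zero (inv.ex ht he) hen).symm
      · have hss : s ≠ s' := by
          rintro rfl
          rcases (hends d).mpr (Or.inl rfl) with h | h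
          · rw [← h] at h3; omega
          · rw [← h] at h4; omega
        have hdj := inv.dj s hs hs0 s' hs' hs0' hss x hx hx'
        rcases (hends x).mp hdj.1 with h | h
        · exfalso
          rcases hdj.2 with h' | h'
          · rw [← h', h] at h3; omega
          · rw [← h', h] at h4; omega
        · exact h
    refine ⟨σ.C s ∪ S, Ch.cons hlink hS hmeet, ?_⟩
    intro x hx
    right
    have hsd : dl h0 σ t s ≤ n + 1 ∧ dl h0 σ t (σ.hub s) ≤ n + 1 ∧ (dl h0 σ t s = n + 1 → s = d) ∧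
        (dl h0 σ t (σ.hub s) = n + 1 → σ.hub s = d) := by
      rcases hor with h | h
      · rw [← h.2, ← h.1]
        exact ⟨by omega, by omega, fun _ => rfl, fun h => by omega⟩
      · rw [← h.1, ← h.2]
        exact ⟨by omega, by omega, fun h => by omega, fun _ => rfl⟩
    rcases mem_union.mp hx with hx | hx
    · exact ⟨s, hs, hs0, hx, hsd⟩
    · rcases hSx x hx with ⟨h1, h2⟩ | ⟨s', hs', hs0', hx', h3, h4, h5, h6⟩
      · refine ⟨s, hs, hs0, ?_, hsd⟩
        rw [h1] at hen
        rw [h2, ← dl_zero (inv.ex ht he) hen]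
        exact heC
      · exact ⟨s', hs', hs0', hx', by omega, by omega, fun h => by omega, fun h => by omega⟩

/-- the class in which `t` is put -/
noncomputable def cls (K : Finset V) (σ : St V) (t : V) : Finset V :=
  K.filter (fun v => v ∉ σ.H ∧ σ.col v = par (σ.lev t))

/-- MAIN CLAIM: a dicycle of `cls + t` meets the tree of dicycles only in `t` -/
theorem Inv.noHit (inv : Inv R K h0 σ) (hN : ¬ NR R) {t : V} (ht : t ∈ σ.H) (ht0 : t ≠ h0)
    {k : Finset V} (hk : DC R k) (htk : t ∈ k) (hkA : ∀ x ∈ k, x ≠ t → x ∈ cls K σ t) :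
    ∀ s ∈ σ.U, s ≠ h0 → ∀ x ∈ k, x ∈ σ.C s → x = t := by
  have htU : t ∈ σ.U := inv.HU ht
  by_contra hcon
  push Not at hcon
  obtain ⟨s1, hs1, hs10, x1, hx1, hx1', hx1t⟩ := hcon
  -- choose the edge nearest to `t`
  obtain ⟨s, hs, hmin⟩ := exists_min_image (σ.U.filter (fun s => s ≠ h0 ∧ ∃ x ∈ k, x ∈ σ.C s ∧ x ≠ t))
    (fun s => min (dl h0 σ t s) (dl h0 σ t (σ.hub s))) ⟨s1, by
      simp only [mem_filter]; exact ⟨hs1, hs10, x1, hx1, hx1', hx1t⟩⟩
  simp only [mem_filter] at hs hmin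
  obtain ⟨hsU, hs0, x, hxk, hxC, hxt⟩ := hs
  obtain ⟨hdc, hsC, hhC, hCK⟩ := inv.dc s hsU hs0
  obtain ⟨hhU, hhH, hlev⟩ := inv.hb s hsU hs0
  have hcolk : ∀ x ∈ k, x ≠ t → x ∈ K ∧ x ∉ σ.H ∧ σ.col x = par (σ.lev t) := by
    intro x hx hxt
    have := hkA x hx hxt
    unfold cls at this
    rw [mem_filter] at this
    exact this
  have htb := inv.hb t htU ht0
  have notT : ∀ x ∈ k, x ∈ σ.C t → x = t := by
    intro x hx hxC
    by_contra hxt
    have h1 := (inv.cl t htU ht0 x hxC hxt).2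
    have h2 := (hcolk x hx hxt).2.2
    rw [h1, par_eq] at h2
    omega
  have hst : s ≠ t := by
    rintro rfl
    exact hxt (notT x hxk hxC)
  -- the near end `d` and the far end `f`
  obtain ⟨d, f, hdf, hfd, hdU⟩ : ∃ d f, ((d = s ∧ f = σ.hub s) ∨ (d = σ.hub s ∧ f = s)) ∧
      dl h0 σ t f = dl h0 σ t d + 1 ∧ d ∈ σ.U := by
    rcases inv.dlEdge htU hsU hs0 with h | h
    · exact ⟨σ.hub s, s, Or.inr ⟨rfl, rfl⟩, h, hhU⟩
    · exact ⟨s, σ.hub s, Or.inl ⟨rfl, rfl⟩, h, hsU⟩
  have hminv : min (dl h0 σ t s) (dl h0 σ t (σ.hub s)) = dl h0 σ t d := by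
    rcases hdf with h | h
    · rw [← h.2, ← h.1, hfd]; omega
    · rw [← h.1, ← h.2, hfd]; omega
  have hends : ∀ x, (x = s ∨ x = σ.hub s) ↔ (x = d ∨ x = f) := by
    intro x
    rcases hdf with h | h
    · rw [h.1, h.2]
    · rw [h.1, h.2]; exact or_comm
  have hdC : d ∈ σ.C s := by
    rcases (hends d).mpr (Or.inl rfl) with h | h
    · rw [h]; exact hsC
    · rw [h]; exact hhC
  have hdt : d ≠ t := by
    rintro rfl
    rcases (hends d).mpr (Or.inl rfl) with h | h
    · exact hst h.symm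
    · exact hhH (h ▸ ht)
  obtain ⟨m, hm⟩ : ∃ m, m = dl h0 σ t d := ⟨_, rfl⟩
  have hm1 : 1 ≤ m := by
    by_contra hcon
    exact hdt (dl_zero (inv.ex htU hdU) (by omega))
  obtain ⟨S, hS, hSx⟩ := inv.chain htU m d hdU hm.symm
  have htC : t ∉ σ.C s := fun h => (inv.cl s hsU hs0 t h (Ne.symm hst)).1 ht
  -- `k` meets the chain in `t` only
  have hkS : ∀ x ∈ k, x ∈ S → x = t := by
    intro x hx hxS
    by_contra hxt
    rcases hSx x hxS with ⟨h1, _⟩ | ⟨s', hs', hs0', hx', h3, h4, h5, h6⟩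
    · omega
    · have h7 := hmin s' ⟨hs', hs0', x, hx, hx', hxt⟩
      rw [hminv] at h7
      have h8 := inv.dlEdge htU hs' hs0'
      omega
  -- `C s` meets the chain in `d` only
  have hCS : ∀ x ∈ σ.C s, x ∈ S → x = d := by
    intro x hx hxS
    rcases hSx x hxS with ⟨h1, _⟩ | ⟨s', hs', hs0', hx', h3, h4, h5, h6⟩
    · omega
    · have hss : s ≠ s' := by
        rintro rfl
        rcases (hends f).mpr (Or.inr rfl) with h | h
        · rw [← h] at h3; omega
        · rw [← h] at h4; omega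
      have hdj := inv.dj s hsU hs0 s' hs' hs0' hss x hx hx'
      rcases (hends x).mp hdj.1 with h | h
      · exact h
      · exfalso
        rcases hdj.2 with h' | h'
        · rw [← h', h] at h3; omega
        · rw [← h', h] at h4; omega
  have hdk : d ∉ k := fun h => hdt (hkS d h hS.left)
  obtain ⟨v, v', Q1, Q2, hv, hv', hvC, hvC', rQ1, rQ2, sQ1, sQ2, iQ1, iQ2, iQQ, hrest⟩ :=
    hdc.contact hdC (fun z => z ∈ k) hdk ⟨x, hxC, hxk⟩
  have hvt : v ≠ t := by rintro rfl; exact htC hvC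
  have hvt' : v' ≠ t := by rintro rfl; exact htC hvC'
  by_cases hvv : v = v'
  · -- an exact contact
    subst hvv
    obtain ⟨B1, B2, sB1, sB2, rB1, rB2, iBB⟩ := hk.pair htk hv hvt
    refine hN ⟨m, d, t, S, σ.C s ∪ k, hm1, hS, ?_, ?_⟩
    · refine ⟨v, v, {v}, Q2, Q1, B1, B2, hdt, Rc.rfl' (by simp), rQ2, rQ1, rB1, rB2, ?_, ?_, by simp, by simp,
        by simp, by simp, ?_, ?_, ?_, ?_, sQ2.trans subset_union_left, sQ1.trans subset_union_left,
        sB1.trans subset_union_right, sB2.trans subset_union_right⟩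
      · rw [mem_singleton]; rintro rfl; exact hdk hv
      · rw [mem_singleton]; exact fun h => hvt h.symm
      · intro z hz hz'
        rcases iQQ z hz' hz with h | h
        · exact Or.inl h
        · right; rw [h.1]; simp
      · intro z hz hz'
        rcases iBB z hz hz' with h | h
        · exact Or.inl h
        · right; rw [h]; simp
      · intro z hz hz'
        have hzk : z ∈ k := by
          rcases hz' with h | h
          · exact sB1 h
          · exact sB2 h
        rw [mem_singleton]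
        rcases hz with h | h
        · exact iQ2 z h hzk
        · exact iQ1 z h hzk
      · intro z hz
        rw [mem_singleton] at hz
        rw [hz]
        exact mem_union_left _ hvC
    · intro z hz hz'
      rcases mem_union.mp hz' with h | h
      · exact Or.inl (hCS z h hz)
      · exact Or.inr (hkS z h hz)
  · rcases hk.sides htk hv hv' hvt hvt' hvv with ⟨N, B1, B2, sN, sB1, sB2, rN, rB1, rB2, htN, iB1, iB2, iBB⟩ |
      ⟨P1, P2, sP1, sP2, rP1, rP2, iPP, hback⟩
    · -- a ring with one neck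
      refine hN ⟨m, d, t, S, σ.C s ∪ k, hm1, hS, ?_, ?_⟩
      · refine ⟨v, v', N, Q2, Q1, B1, B2, hdt, rN, rQ2, rQ1, rB1, rB2, fun h => hdk (sN h), htN,
          fun z hz hz' => iQ2 z hz (sN hz'), fun z hz hz' => iQ1 z hz (sN hz'), iB1, iB2, ?_, ?_, ?_,
          sN.trans subset_union_right, sQ2.trans subset_union_left, sQ1.trans subset_union_left,
          sB1.trans subset_union_right, sB2.trans subset_union_right⟩
        · intro z hz hz'
          rcases iQQ z hz' hz with h | h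
          · exact Or.inl h
          · right; rw [h.1]; exact rN.left
        · intro z hz hz'
          exact Or.inl (iBB z hz hz')
        · intro z hz hz'
          have hzk : z ∈ k := by
            rcases hz' with h | h
            · exact sB1 h
            · exact sB2 h
          rcases hz with h | h
          · rw [iQ2 z h hzk]; exact rN.right
          · rw [iQ1 z h hzk]; exact rN.left
      · intro z hz hz'
        rcases mem_union.mp hz' with h | h
        · exact Or.inl (hCS z h hz)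
        · exact Or.inr (hkS z h hz)
    · by_cases hm2 : 2 ≤ m
      · -- an exact ring
        refine hN (Neck.nr ⟨m, d, t, S, (Q1 ∪ P2) ∪ (P1 ∪ Q2), hm2, hS, ?_, ?_⟩)
        · refine Link.symm ⟨hdt, Q1 ∪ P2, P1 ∪ Q2, rQ1.trans' rP2 subset_union_left subset_union_right,
            rP1.trans' rQ2 subset_union_left subset_union_right, ?_, subset_union_left, subset_union_right⟩
          intro z hz hz'
          rcases mem_union.mp hz with h | h
          · rcases mem_union.mp hz' with h' | h'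
            · -- `z` in `Q1` and in `P1`
              have hzv := iQ1 z h (sP1 h')
              subst hzv
              exact Or.inr (iPP z h' rP2.left)
            · rcases iQQ z h h' with h2 | h2
              · exact Or.inl h2
              · exact absurd (h2.1.symm.trans h2.2) hvv
          · rcases mem_union.mp hz' with h' | h'
            · exact Or.inr (iPP z h' h)
            · have hzv := iQ2 z h' (sP2 h)
              subst hzv
              exact Or.inr (iPP z rP1.right h)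
        · intro z hz hz'
          have : z ∈ σ.C s ∨ z ∈ k := by
            simp only [mem_union] at hz'
            rcases hz' with (h | h) | (h | h)
            · exact Or.inl (sQ1 h)
            · exact Or.inr (sP2 h)
            · exact Or.inr (sP1 h)
            · exact Or.inl (sQ2 h)
          rcases this with h | h
          · exact Or.inl (hCS z h hz)
          · exact Or.inr (hkS z h hz)
      · -- colours
        have hm1' : dl h0 σ t d = 0 + 1 := by omega
        obtain ⟨e, hde, he, he0⟩ := inv.dlNext htU hdU hm1'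
        have het : e = t := dl_zero (inv.ex htU he) he0
        subst het
        have hdh : d = σ.hub e := by
          obtain ⟨s', hs', hs0', h | h⟩ := hde
          · exact absurd (h.2 ▸ ht) (inv.hb s' hs' hs0').2.1
          · rw [h.1, h.2]
        have hlt : σ.lev e = σ.lev d + 1 := by rw [hdh]; exact htb.2.2
        rcases (hends d).mpr (Or.inl rfl) with h | h
        · -- parent
          have hds0 : d ≠ h0 := by rw [h]; exact hs0
          have hlev' : σ.lev d = σ.lev (σ.hub s) + 1 := by rw [h]; exact hlev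
          have hpath := hrest hvv
          have hA : Ac R (cls K σ e) := inv.ac _
          refine hvv (hA.eq hpath hback ?_ ?_)
          · intro z hz
            rw [mem_erase] at hz
            have hzs : z ≠ s := by rw [← h]; exact hz.1
            have h1 := inv.cl s hsU hs0 z hz.2 hzs
            unfold cls
            rw [mem_filter]
            refine ⟨hCK hz.2, h1.1, ?_⟩
            rw [h1.2, par_eq]
            omega
          · intro z hz
            rw [mem_erase] at hz
            exact hkA z hz.2 hz.1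
        · -- sibling
          have key : ∀ z ∈ σ.C s, z ∈ k → z = s := by
            intro z hz hzk
            by_contra hzs
            have h1 := (inv.cl s hsU hs0 z hz hzs).2
            have hze : z ≠ e := by rintro rfl; exact htC hz
            have h2 := (hcolk z hzk hze).2.2
            rw [h1, par_eq, ← h] at h2
            omega
          exact hvv ((key v hvC hv).trans (key v' hvC' hv').symm)

end Pool.Agent.Lib.PR
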