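import Mathlib
import Pool.Agent.Lib.PR.Tree

set_option autoImplicit false

/-! Processing one hole; covering by two acyclic sets when there is no ring with at most one neck. -/

namespace Pool.Agent.Lib.PR

open Finset Pool.Agent.Lib.NK
open scoped Classical

variable {V : Type*} {R : V → V → Prop} {K : Finset V} {h0 : V} {σ : St V}

/-- removing a transversal -/
theorem ac_insert {D : Finset V} {s : V} {X : Finset V} (hD : Ac R D) (h : Tr R D s X)
    (hirr : ∀ v, ¬ R v v) (hs : s ∉ D) : Ac R (insert s (D \ X)) := by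
  intro u v huv hu hr
  have hne : v ≠ u := by rintro rfl; exact hirr _ huv
  by_cases hus : u = s
  · subst hus
    obtain ⟨w, hw, hr'⟩ := hr.inn hne
    rw [erase_insert (by simp [hs])] at hr'
    exact h v w huv hw hr'
  · have hu' : u ∈ D \ X := by simpa [hus] using hu
    rcases hr.cut s with h1 | ⟨h1, h2⟩
    · rw [erase_insert (by simp [hs])] at h1
      exact hD u v huv (mem_sdiff.mp hu').1 (h1.mono sdiff_subset)
    · obtain ⟨n, hn, h3⟩ := h2.out hus
      rw [erase_insert (by simp [hs])] at h3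
      by_cases hvs : v = s
      · subst hvs
        exact h n u hn huv h3
      · obtain ⟨w, hw, h4⟩ := h1.inn hvs
        rw [erase_insert (by simp [hs])] at h4
        exact h n w hn hw ((h3.tail huv h4.left).trans h4)

/-- some child of the root -/
theorem Inv.child (inv : Inv R K h0 σ) : ∀ n, ∀ s ∈ σ.U, σ.lev s ≤ n → s ≠ h0 →
    ∃ s' ∈ σ.U, s' ≠ h0 ∧ σ.hub s' = h0 := by
  intro n
  induction n with
  | zero =>
    intro s hs hn h
    have := (inv.hb s hs h).2.2
    omega
  | succ n ih =>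
    intro s hs hn h
    obtain ⟨h1, h2, h3⟩ := inv.hb s hs h
    by_cases hh : σ.hub s = h0
    · exact ⟨s, hs, h, hh⟩
    · exact ih (σ.hub s) h1 (by omega) hh

theorem Inv.rootHole (inv : Inv R K h0 σ) (h : h0 ∈ σ.H) : ∀ s ∈ σ.U, s = h0 := by
  intro s hs
  by_contra hne
  obtain ⟨s', hs', hs0', hh⟩ := inv.child _ s hs (le_refl _) hne
  exact (inv.hb s' hs' hs0').2.1 (hh ▸ h)

theorem Inv.rootIn (inv : Inv R K h0 σ) {t : V} (ht : t ∈ σ.U) (ht0 : t ≠ h0) :
    ∃ s ∈ σ.U, s ≠ h0 ∧ h0 ∈ σ.C s := by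
  obtain ⟨s', hs', hs0', hh⟩ := inv.child _ t ht (le_refl _) ht0
  exact ⟨s', hs', hs0', hh ▸ (inv.dc s' hs' hs0').2.2.1⟩

/-- the main claim for every hole -/
theorem Inv.noHit' (inv : Inv R K h0 σ) (hN : ¬ NR R) {t : V} (ht : t ∈ σ.H)
    {k : Finset V} (hk : DC R k) (htk : t ∈ k) (hkA : ∀ x ∈ k, x ≠ t → x ∈ cls K σ t) :
    (∀ s ∈ σ.U, s ≠ h0 → ∀ x ∈ k, x ∈ σ.C s → x = t) ∧ (∀ x ∈ k, x ∈ σ.U → x = t) := by
  by_cases ht0 : t = h0
  · subst ht0
    have h1 := inv.rootHole ht
    exact ⟨fun s hs hs0 => absurd (h1 s hs) hs0, fun x _ hxU => h1 x hxU⟩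
  · have h1 := inv.noHit hN ht ht0 hk htk hkA
    refine ⟨h1, ?_⟩
    intro x hx hxU
    by_cases hx0 : x = h0
    · obtain ⟨s, hs, hs0, hh⟩ := inv.rootIn (inv.HU ht) ht0
      exact h1 s hs hs0 x hx (hx0 ▸ hh)
    · exact h1 x hxU hx0 x hx (inv.dc x hxU hx0).2.1

/-- the next state -/
noncomputable def nxt (σ : St V) (t : V) (X : Finset V) (g : V → Finset V) : St V where
  U := σ.U ∪ X
  H := σ.H.erase t ∪ X
  hub := fun y => if y ∈ X then t else σ.hub y
  C := fun y => if y ∈ X then g y else σ.C y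
  col := fun v => if v = t then par (σ.lev t) else σ.col v
  lev := fun y => if y ∈ X then σ.lev t + 1 else σ.lev y

theorem Inv.step [Finite V] (hirr : ∀ v, ¬ R v v) (inv : Inv R K h0 σ) (hN : ¬ NR R) {t : V} (ht : t ∈ σ.H) :
    ∃ σ' : St V, Inv R K h0 σ' ∧ (σ.U \ σ.H).card < (σ'.U \ σ'.H).card := by
  have htU : t ∈ σ.U := inv.HU ht
  have htK : t ∈ K := inv.UK htU
  have htD : t ∉ cls K σ t := by
    unfold cls; rw [mem_filter]; exact fun h => h.2.1 ht
  have hAD : Ac R (cls K σ t) := inv.ac _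
  obtain ⟨X, hXD, hT, g, hg⟩ := exists_fan (R := R) (D := cls K σ t) htD
  have hXc : ∀ y ∈ X, y ∈ K ∧ y ∉ σ.H ∧ σ.col y = par (σ.lev t) := by
    intro y hy
    have := hXD hy
    unfold cls at this
    rw [mem_filter] at this
    exact this
  have hXt : ∀ y ∈ X, y ≠ t := by rintro y hy rfl; exact htD (hXD hy)
  have htX : t ∉ X := fun h => hXt t h rfl
  have hgA : ∀ y ∈ X, ∀ x ∈ g y, x ≠ t → x ∈ cls K σ t := by
    intro y hy x hx hxt
    rcases (hg y hy).2.2.2.1 x hx with h | h | h
    · exact absurd h hxt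
    · rw [h]; exact hXD hy
    · exact (mem_sdiff.mp h).1
  have hgK : ∀ y ∈ X, g y ⊆ K := by
    intro y hy x hx
    by_cases hxt : x = t
    · rw [hxt]; exact htK
    · have := hgA y hy x hx hxt
      unfold cls at this
      exact (mem_filter.mp this).1
  have hnh : ∀ y ∈ X, (∀ s ∈ σ.U, s ≠ h0 → ∀ x ∈ g y, x ∈ σ.C s → x = t) ∧ (∀ x ∈ g y, x ∈ σ.U → x = t) :=
    fun y hy => inv.noHit' hN ht (hg y hy).1 (hg y hy).2.1 (hgA y hy)
  have hXU : ∀ y ∈ X, y ∉ σ.U := by
    intro y hy hyU
    exact hXt y hy ((hnh y hy).2 y (hg y hy).2.2.1 hyU)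
  have hUX : ∀ s ∈ σ.U, s ∉ X := fun s hs hsX => hXU s hsX hs
  have hh0X : h0 ∉ X := hUX h0 inv.h0U
  have hCX : ∀ s ∈ σ.U, s ≠ h0 → ∀ v ∈ σ.C s, v ∉ X := by
    intro s hs hs0 v hv hvX
    exact hXt v hvX ((hnh v hvX).1 s hs hs0 v (hg v hvX).2.2.1 hv)
  -- the data of the next state on old and new vertices
  have o1 : ∀ s ∈ σ.U, (nxt σ t X g).hub s = σ.hub s ∧ (nxt σ t X g).C s = σ.C s ∧
      (nxt σ t X g).lev s = σ.lev s := by
    intro s hs
    simp [nxt, hUX s hs]
  have o2 : ∀ y ∈ X, (nxt σ t X g).hub y = t ∧ (nxt σ t X g).C y = g y ∧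
      (nxt σ t X g).lev y = σ.lev t + 1 := by
    intro y hy
    simp [nxt, hy]
  have oU : ∀ s, s ∈ (nxt σ t X g).U ↔ s ∈ σ.U ∨ s ∈ X := by intro s; simp [nxt]
  have oH : ∀ s, s ∈ (nxt σ t X g).H ↔ (s ≠ t ∧ s ∈ σ.H) ∨ s ∈ X := by intro s; simp [nxt]
  have oc : ∀ v, v ≠ t → (nxt σ t X g).col v = σ.col v := by intro v hv; simp [nxt, hv]
  have oct : (nxt σ t X g).col t = par (σ.lev t) := by simp [nxt]
  refine ⟨nxt σ t X g, ?_, ?_⟩
  · refine ⟨?_, ?_, ?_, ?_, ?_, ?_, ?_, ?_⟩
    · intro s hs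
      rw [oU]
      rcases (oH s).mp hs with h | h
      · exact Or.inl (inv.HU h.2)
      · exact Or.inr h
    · intro s hs
      rcases (oU s).mp hs with h | h
      · exact inv.UK h
      · exact (hXc s h).1
    · rw [oU]; exact Or.inl inv.h0U
    · -- hb
      intro s hs hs0
      rcases (oU s).mp hs with h | h
      · obtain ⟨a1, a2, a3⟩ := inv.hb s h hs0
        rw [(o1 s h).1, (o1 s h).2.2, (o1 _ a1).2.2, oU, oH]
        refine ⟨Or.inl a1, ?_, a3⟩
        rintro (h' | h')
        · exact a2 h'.2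
        · exact hUX _ a1 h'
      · rw [(o2 s h).1, (o2 s h).2.2, (o1 t htU).2.2, oU, oH]
        refine ⟨Or.inl htU, ?_, rfl⟩
        rintro (h' | h')
        · exact h'.1 rfl
        · exact htX h'
    · -- dc
      intro s hs hs0
      rcases (oU s).mp hs with h | h
      · rw [(o1 s h).1, (o1 s h).2.1]
        exact inv.dc s h hs0
      · rw [(o2 s h).1, (o2 s h).2.1]
        exact ⟨(hg s h).1, (hg s h).2.2.1, (hg s h).2.1, hgK s h⟩
    · -- cl
      intro s hs hs0 v hv hvs
      rcases (oU s).mp hs with h | h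
      · rw [(o1 s h).2.1] at hv
        obtain ⟨a1, a2⟩ := inv.cl s h hs0 v hv hvs
        have hvt : v ≠ t := by rintro rfl; exact a1 ht
        rw [oH, (o1 s h).1, (o1 _ (inv.hb s h hs0).1).2.2, oc v hvt]
        refine ⟨?_, a2⟩
        rintro (h' | h')
        · exact a1 h'.2
        · exact hCX s h hs0 v hv h'
      · rw [(o2 s h).2.1] at hv
        rw [oH, (o2 s h).1, (o1 t htU).2.2]
        rcases (hg s h).2.2.2.1 v hv with h' | h' | h'
        · subst h'
          refine ⟨?_, oct⟩
          rintro (h' | h')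
          · exact h'.1 rfl
          · exact htX h'
        · exact absurd h' hvs
        · have hvD := (mem_sdiff.mp h').1
          have hvX := (mem_sdiff.mp h').2
          unfold cls at hvD
          rw [mem_filter] at hvD
          have hvt : v ≠ t := by rintro rfl; exact hvD.2.1 ht
          rw [oc v hvt]
          refine ⟨?_, hvD.2.2⟩
          rintro (h' | h')
          · exact hvD.2.1 h'.2
          · exact hvX h'
    · -- ac
      intro κ
      by_cases hκ : κ = par (σ.lev t)
      · subst hκ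
        refine (ac_insert hAD hT hirr htD).mono ?_
        intro v hv
        rw [mem_filter, oH] at hv
        obtain ⟨hvK, hvH, hvc⟩ := hv
        rw [mem_insert]
        by_cases hvt : v = t
        · exact Or.inl hvt
        · right
          rw [oc v hvt] at hvc
          rw [mem_sdiff]
          unfold cls
          rw [mem_filter]
          exact ⟨⟨hvK, fun h => hvH (Or.inl ⟨hvt, h⟩), hvc⟩, fun h => hvH (Or.inr h)⟩
      · refine (inv.ac κ).mono ?_
        intro v hv
        rw [mem_filter, oH] at hv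
        obtain ⟨hvK, hvH, hvc⟩ := hv
        have hvt : v ≠ t := by
          rintro rfl
          rw [oct] at hvc
          exact hκ hvc.symm
        rw [oc v hvt] at hvc
        rw [mem_filter]
        exact ⟨hvK, fun h => hvH (Or.inl ⟨hvt, h⟩), hvc⟩
    · -- dj
      intro s hs hs0 s' hs' hs0' hss x hx hx'
      rcases (oU s).mp hs with h | h
      · rcases (oU s').mp hs' with h' | h'
        · rw [(o1 s h).2.1] at hx
          rw [(o1 s' h').2.1] at hx'
          rw [(o1 s h).1, (o1 s' h').1]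
          exact inv.dj s h hs0 s' h' hs0' hss x hx hx'
        · rw [(o1 s h).2.1] at hx
          rw [(o2 s' h').2.1] at hx'
          rw [(o1 s h).1, (o2 s' h').1]
          have hxt := (hnh s' h').1 s h hs0 x hx' hx
          subst hxt
          refine ⟨?_, Or.inr rfl⟩
          by_contra hcon
          push Not at hcon
          exact (inv.cl s h hs0 x hx hcon.1).1 ht
      · rcases (oU s').mp hs' with h' | h'
        · rw [(o2 s h).2.1] at hx
          rw [(o1 s' h').2.1] at hx'
          rw [(o2 s h).1, (o1 s' h').1]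
          have hxt := (hnh s h).1 s' h' hs0' x hx hx'
          subst hxt
          refine ⟨Or.inr rfl, ?_⟩
          by_contra hcon
          push Not at hcon
          exact (inv.cl s' h' hs0' x hx' hcon.1).1 ht
        · rw [(o2 s h).2.1] at hx
          rw [(o2 s' h').2.1] at hx'
          rw [(o2 s h).1, (o2 s' h').1]
          have hxt := (hg s h).2.2.2.2 s' h' hss x hx hx'
          exact ⟨Or.inr hxt, Or.inr hxt⟩
  · apply card_lt_card
    rw [Finset.ssubset_iff_of_subset]
    · refine ⟨t, ?_, ?_⟩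
      · rw [mem_sdiff, oU, oH]
        refine ⟨Or.inl htU, ?_⟩
        rintro (h' | h')
        · exact h'.1 rfl
        · exact htX h'
      · rw [mem_sdiff]; exact fun h => h.2 ht
    · intro s hs
      rw [mem_sdiff] at hs
      rw [mem_sdiff, oU, oH]
      refine ⟨Or.inl hs.1, ?_⟩
      rintro (h' | h')
      · exact hs.2 h'.2
      · exact hUX s hs.1 h'

theorem Inv.run [Finite V] (hirr : ∀ v, ¬ R v v) (hN : ¬ NR R) : ∀ n, ∀ σ : St V, Inv R K h0 σ →
    K.card ≤ (σ.U \ σ.H).card + n → ∃ col : V → Bool, ∀ κ, Ac R (K.filter (fun v => col v = κ)) := by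
  intro n
  induction n with
  | zero =>
    intro σ inv hn
    by_cases hH : σ.H = ∅
    · refine ⟨σ.col, fun κ => (inv.ac κ).mono ?_⟩
      intro v hv
      rw [mem_filter] at hv ⊢
      rw [hH]
      exact ⟨hv.1, by simp, hv.2⟩
    · obtain ⟨t, ht⟩ := Finset.nonempty_iff_ne_empty.mpr hH
      exfalso
      have h1 : (σ.U \ σ.H) ⊂ K := by
        rw [Finset.ssubset_iff_of_subset (sdiff_subset.trans inv.UK)]
        exact ⟨t, inv.UK (inv.HU ht), fun h => (mem_sdiff.mp h).2 ht⟩
      have := card_lt_card h1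
      omega
  | succ n ih =>
    intro σ inv hn
    by_cases hH : σ.H = ∅
    · refine ⟨σ.col, fun κ => (inv.ac κ).mono ?_⟩
      intro v hv
      rw [mem_filter] at hv ⊢
      rw [hH]
      exact ⟨hv.1, by simp, hv.2⟩
    · obtain ⟨t, ht⟩ := Finset.nonempty_iff_ne_empty.mpr hH
      obtain ⟨σ', inv', hlt⟩ := inv.step hirr hN ht
      exact ih σ' inv' (by omega)

/-- without a ring with at most one neck every vertex set splits into two acyclic sets -/
theorem two_col [Finite V] (hirr : ∀ v, ¬ R v v) (hN : ¬ NR R) (K : Finset V) :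
    ∃ col : V → Bool, ∀ κ, Ac R (K.filter (fun v => col v = κ)) := by
  induction K using Finset.induction_on with
  | empty =>
    refine ⟨fun _ => true, fun κ => ?_⟩
    intro u v _ hu
    simp at hu
  | insert h0 K hh ih =>
    obtain ⟨col, hcol⟩ := ih
    refine Inv.run (K := insert h0 K) (h0 := h0) hirr hN (insert h0 K).card
      ⟨{h0}, {h0}, fun v => v, fun _ => ∅, col, fun _ => 0⟩ ?_ (by omega)
    refine ⟨Subset.refl _, by simp, by simp, ?_, ?_, ?_, ?_, ?_⟩
    · intro s hs hs0; exact absurd (by simpa using hs) hs0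
    · intro s hs hs0; exact absurd (by simpa using hs) hs0
    · intro s hs hs0; exact absurd (by simpa using hs) hs0
    · intro κ
      refine (hcol κ).mono ?_
      intro v hv
      simp only [mem_filter, mem_insert, mem_singleton] at hv ⊢
      refine ⟨?_, hv.2.2⟩
      rcases hv.1 with h | h
      · exact absurd h hv.2.1
      · exact h
    · intro s hs hs0; exact absurd (by simpa using hs) hs0

/-- an acyclic set contains no nonempty subset without sinks -/
theorem ac_sink {F S : Finset V} (h : Ac R F) (hS : S ⊆ F) (hne : S.Nonempty)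
    (hs : ∀ u ∈ S, ∃ v ∈ S, R u v) : False := by
  obtain ⟨u, hu, hmin⟩ := exists_min_image S (fun u => (S.filter (fun x => Rc R S u x)).card) hne
  obtain ⟨v, hv, huv⟩ := hs u hu
  have h1 := hmin v hv
  have h2 : S.filter (fun x => Rc R S v x) ⊂ S.filter (fun x => Rc R S u x) := by
    rw [Finset.ssubset_iff_of_subset]
    · refine ⟨u, by simp [hu, Rc.rfl' hu], ?_⟩
      simp only [mem_filter, not_and]
      intro _ h3
      exact h u v huv (hS hu) (h3.mono hS)
    · intro x hx
      rw [mem_filter] at hx ⊢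
      exact ⟨hx.1, Rc.head huv hu hx.2⟩
  have := card_lt_card h2
  omega

end Pool.Agent.Lib.PR
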